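import Pool.Agent.LibTI52.TI_Defs

/-! TI52, file A1: elementary facts on the index of a bilinear form. -/

set_option autoImplicit false

open scoped Manifold ContDiff InnerProductSpace Topology

namespace Pool.TI52

/-- PROOF.  `W ⊓ W' = ⊥`, so `W ⊔ W' = ⊤` by dimensions.  `v = w + w'` in the kernel: `B v w = 0` and `B v w' = 0` give
`B w w = - B w' w = - B w w' = B w' w'` (symmetry), which is `≤ 0` and `≥ 0`; so `w = w' = 0`. -/
theorem HasIndex.nondeg {n : ℕ} {B : Bil n} (hs : ∀ u v, B u v = B v u) {i : ℕ}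
    (h : HasIndex B i) : Nondeg B := by
  obtain ⟨hi, W, W', hW, hW', hneg, hpos⟩ := h
  intro v hv
  have hdisj : W ⊓ W' = ⊥ := by
    rw [Submodule.eq_bot_iff]
    intro x hx
    by_contra h0
    exact absurd (hneg x hx.1 h0) (not_lt.2 (hpos x hx.2 h0).le)
  have hsup : W ⊔ W' = ⊤ := by
    apply Submodule.eq_top_of_finrank_eq
    have h1 := Submodule.finrank_sup_add_finrank_inf_eq W W'
    rw [hdisj, finrank_bot, hW, hW'] at h1
    rw [finrank_euclideanSpace_fin]
    omega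
  have hmem : v ∈ W ⊔ W' := by
    rw [hsup]
    exact Submodule.mem_top
  obtain ⟨w, hw, w', hw', rfl⟩ := Submodule.mem_sup.1 hmem
  have h1 := hv w
  have h2 := hv w'
  rw [map_add, add_apply] at h1 h2
  have h3 := hs w w'
  have h4 : B w w = B w' w' := by linarith
  have h5 : 0 ≤ B w' w' := by
    by_cases hz : w' = 0
    · rw [hz, map_zero]
    · exact (hpos w' hw' hz).le
  have h6 : w = 0 := by
    by_contra hz
    have h7 := hneg w hw hz
    linarith
  have h7 : w' = 0 := by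
    by_contra hz
    have h8 := hpos w' hw' hz
    rw [← h4, h6, map_zero] at h8
    exact lt_irrefl _ h8
  rw [h6, h7, add_zero]

theorem hasIndex_self_iff {n : ℕ} (B : Bil n) : HasIndex B n ↔ ∀ v, v ≠ 0 → B v v < 0 := by
  constructor
  · rintro ⟨_, W, W', hW, _, hneg, _⟩ v hv
    have hT : W = ⊤ := by
      apply Submodule.eq_top_of_finrank_eq
      rw [hW, finrank_euclideanSpace_fin]
    exact hneg v (by rw [hT]; exact Submodule.mem_top) hv
  · intro h
    refine ⟨le_refl n, ⊤, ⊥, ?_, ?_, fun v _ hv => h v hv, ?_⟩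
    · rw [finrank_top, finrank_euclideanSpace_fin]
    · rw [finrank_bot, Nat.sub_self]
    · intro v hv hv0
      exact absurd ((Submodule.mem_bot ℝ).1 hv) hv0

/-- PROOF.  If `B v v = 0` then for all `w`, `t`: `0 ≥ B (t v + w) (t v + w) = 2 t B v w + B w w`, so `B v w = 0`. -/
theorem negDef_of_nondeg {n : ℕ} {B : Bil n} (hs : ∀ u v, B u v = B v u) (h : ∀ v, B v v ≤ 0)
    (hn : Nondeg B) : ∀ v, v ≠ 0 → B v v < 0 := by
  intro v hv
  refine lt_of_le_of_ne (h v) fun h0 => hv (hn v fun w => ?_)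
  by_contra hc
  have key : ∀ t : ℝ, 2 * t * B v w + B w w ≤ 0 := by
    intro t
    have h1 := h (t • v + w)
    have h2 : B (t • v + w) (t • v + w) = t * t * B v v + 2 * t * B v w + B w w := by
      simp only [map_add, map_smul, add_apply, smul_apply,
        smul_eq_mul, hs w v]
      ring
    rw [h2, h0] at h1
    linarith
  have h1 := key ((1 - B w w) / (2 * B v w))
  have h2 : 2 * ((1 - B w w) / (2 * B v w)) * B v w = 1 - B w w := by
    field_simp
  rw [h2] at h1
  linarith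

theorem A1_congr {n : ℕ} {B B' : Bil n} (T : EE n ≃L[ℝ] EE n)
    (h : ∀ u v, B' u v = B (T u) (T v)) (i : ℕ) (hB : HasIndex B' i) : HasIndex B i := by
  obtain ⟨hi, W, W', hW, hW', hneg, hpos⟩ := hB
  refine ⟨hi, W.map T.toLinearEquiv.toLinearMap, W'.map T.toLinearEquiv.toLinearMap, ?_, ?_, ?_, ?_⟩
  · rw [LinearEquiv.finrank_map_eq, hW]
  · rw [LinearEquiv.finrank_map_eq, hW']
  · intro v hv hv0
    obtain ⟨u, hu, rfl⟩ := Submodule.mem_map.1 hv
    have hu0 : u ≠ 0 := by
      rintro rfl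
      exact hv0 (map_zero _)
    have h1 := hneg u hu hu0
    rw [h] at h1
    exact h1
  · intro v hv hv0
    obtain ⟨u, hu, rfl⟩ := Submodule.mem_map.1 hv
    have hu0 : u ≠ 0 := by
      rintro rfl
      exact hv0 (map_zero _)
    have h1 := hpos u hu hu0
    rw [h] at h1
    exact h1

theorem hasIndex_congr {n : ℕ} {B B' : Bil n} (T : EE n ≃L[ℝ] EE n)
    (h : ∀ u v, B' u v = B (T u) (T v)) (i : ℕ) : HasIndex B' i ↔ HasIndex B i := by
  refine ⟨A1_congr T h i, A1_congr T.symm (fun u v => ?_) i⟩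
  rw [h, ContinuousLinearEquiv.apply_symm_apply, ContinuousLinearEquiv.apply_symm_apply]

theorem nondeg_congr {n : ℕ} {B B' : Bil n} (T : EE n ≃L[ℝ] EE n)
    (h : ∀ u v, B' u v = B (T u) (T v)) : Nondeg B' ↔ Nondeg B := by
  constructor
  · intro hn v hv
    have h1 : T.symm v = 0 := by
      refine hn _ fun w => ?_
      rw [h, ContinuousLinearEquiv.apply_symm_apply]
      exact hv _
    rw [← T.apply_symm_apply v, h1, map_zero]
  · intro hn v hv
    have h1 : T v = 0 := by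
      refine hn _ fun w => ?_
      have h2 := hv (T.symm w)
      rw [h, ContinuousLinearEquiv.apply_symm_apply] at h2
      exact h2
    rw [← T.symm_apply_apply v, h1, map_zero]

theorem A1_unif {n : ℕ} {B : Bil n} (W : Submodule ℝ (EE n))
    (h : ∀ v ∈ W, v ≠ 0 → B v v < 0) : ∃ c > 0, ∀ v ∈ W, B v v ≤ -c * ‖v‖ ^ 2 := by
  have hcont : Continuous fun v : EE n => B v v := by
    have h1 : Continuous fun v : EE n => B v := B.continuous
    exact h1.clm_apply continuous_id
  have hK : IsCompact ((W : Set (EE n)) ∩ Metric.sphere 0 1) :=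
    (isCompact_sphere (0 : EE n) 1).inter_left W.closed_of_finiteDimensional
  rcases ((W : Set (EE n)) ∩ Metric.sphere 0 1).eq_empty_or_nonempty with he | hne
  · refine ⟨1, one_pos, fun v hv => ?_⟩
    by_cases h0 : v = 0
    · rw [h0, map_zero, norm_zero]
      simp
    · exfalso
      have : (‖v‖⁻¹ • v) ∈ (W : Set (EE n)) ∩ Metric.sphere 0 1 := by
        refine ⟨W.smul_mem _ hv, ?_⟩
        rw [mem_sphere_zero_iff_norm, norm_smul, norm_inv, norm_norm,
          inv_mul_cancel₀ (norm_ne_zero_iff.2 h0)]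
      rw [he] at this
      exact this
  · obtain ⟨v0, hv0, hmax⟩ := hK.exists_isMaxOn hne hcont.continuousOn
    have hv00 : v0 ≠ 0 := by
      rintro rfl
      have := hv0.2
      rw [mem_sphere_zero_iff_norm, norm_zero] at this
      exact zero_ne_one this
    refine ⟨-B v0 v0, neg_pos.2 (h v0 hv0.1 hv00), fun v hv => ?_⟩
    by_cases h0 : v = 0
    · rw [h0, map_zero, norm_zero]
      simp
    · have hn : ‖v‖ ≠ 0 := norm_ne_zero_iff.2 h0
      have h1 : (‖v‖⁻¹ • v) ∈ (W : Set (EE n)) ∩ Metric.sphere 0 1 := by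
        refine ⟨W.smul_mem _ hv, ?_⟩
        rw [mem_sphere_zero_iff_norm, norm_smul, norm_inv, norm_norm, inv_mul_cancel₀ hn]
      have h2 : B (‖v‖⁻¹ • v) (‖v‖⁻¹ • v) ≤ B v0 v0 := hmax h1
      have h3 : B (‖v‖⁻¹ • v) (‖v‖⁻¹ • v) = ‖v‖⁻¹ * ‖v‖⁻¹ * B v v := by
        simp only [map_smul, smul_apply, smul_eq_mul]
        ring
      rw [h3] at h2
      have h4 : B v v = ‖v‖ ^ 2 * (‖v‖⁻¹ * ‖v‖⁻¹ * B v v) := by
        field_simp
      rw [h4, neg_neg, mul_comm (B v0 v0)]
      exact mul_le_mul_of_nonneg_left h2 (sq_nonneg _)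

/-- the index is locally constant.  PROOF: `W` is finite dimensional, so `B v v ≤ - c ‖v‖²` on `W` with `c > 0` (compact unit
sphere of `W`; if `W = ⊥` nothing to do), and the same for `W'`; the same `W`, `W'` work for `‖B' - B‖ < c`. -/
theorem hasIndex_eventually {n : ℕ} {B : Bil n} {i : ℕ} (h : HasIndex B i) :
    ∀ᶠ B' in 𝓝 B, HasIndex B' i := by
  obtain ⟨hi, W, W', hW, hW', hneg, hpos⟩ := h
  obtain ⟨c, hc, h1⟩ := A1_unif W hneg
  obtain ⟨d, hd, h2⟩ := A1_unif (B := -B) W' (fun v hv hv0 => by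
    rw [neg_apply, neg_apply]
    exact neg_neg_of_pos (hpos v hv hv0))
  have hball : Metric.ball B (min c d) ∈ 𝓝 B := Metric.ball_mem_nhds B (lt_min hc hd)
  filter_upwards [hball] with B' hB'
  have hB1 : dist B' B = ‖B' - B‖ := dist_eq_norm B' B
  have hB2 : ‖B' - B‖ < min c d := by
    rw [Metric.mem_ball] at hB'
    rw [← hB1]
    exact hB'
  have hest : ∀ v : EE n, v ≠ 0 → |B' v v - B v v| < min c d * ‖v‖ ^ 2 := by
    intro v hv
    have hn : 0 < ‖v‖ := norm_pos_iff.2 hv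
    have h3 : B' v v - B v v = (B' - B) v v := by
      rw [sub_apply, sub_apply]
    have h4 : |(B' - B) v v| ≤ ‖B' - B‖ * ‖v‖ * ‖v‖ := (B' - B).le_opNorm₂ v v
    rw [h3]
    calc |(B' - B) v v| ≤ ‖B' - B‖ * ‖v‖ * ‖v‖ := h4
      _ = ‖B' - B‖ * ‖v‖ ^ 2 := by ring
      _ < min c d * ‖v‖ ^ 2 := mul_lt_mul_of_pos_right hB2 (by positivity)
  refine ⟨hi, W, W', hW, hW', ?_, ?_⟩
  · intro v hv hv0
    have h3 := abs_lt.1 (hest v hv0)
    have h4 := h1 v hv
    have h5 : min c d * ‖v‖ ^ 2 ≤ c * ‖v‖ ^ 2 :=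
      mul_le_mul_of_nonneg_right (min_le_left _ _) (sq_nonneg _)
    linarith [h3.2]
  · intro v hv hv0
    have h3 := abs_lt.1 (hest v hv0)
    have h4 := h2 v hv
    rw [neg_apply, neg_apply] at h4
    have h5 : min c d * ‖v‖ ^ 2 ≤ d * ‖v‖ ^ 2 :=
      mul_le_mul_of_nonneg_right (min_le_right _ _) (sq_nonneg _)
    linarith [h3.1]

end Pool.TI52
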