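import Pool.Agent.LibTI52.TI_Defs

/-! TI52, file B1: first and second derivatives of the height functions; chain rule; local maxima. -/

set_option autoImplicit false

open scoped Manifold ContDiff InnerProductSpace Topology

namespace Pool.TI52

theorem fderiv_hz {n N : ℕ} {g : EE n → EE N} {x : EE n} (hg : DifferentiableAt ℝ g x)
    (z : EE N) : fderiv ℝ (hz g z) x = (innerSL ℝ z : EE N →L[ℝ] ℝ).comp (fderiv ℝ g x) := by
  have h1 : HasFDerivAt (hz g z) ((innerSL ℝ z : EE N →L[ℝ] ℝ).comp (fderiv ℝ g x)) x :=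
    (innerSL ℝ z : EE N →L[ℝ] ℝ).hasFDerivAt.comp x hg.hasFDerivAt
  exact h1.fderiv

theorem fderiv_hz_apply {n N : ℕ} {g : EE n → EE N} {x : EE n} (hg : DifferentiableAt ℝ g x)
    (z : EE N) (v : EE n) : fderiv ℝ (hz g z) x v = ⟪z, fderiv ℝ g x v⟫_ℝ := by
  rw [fderiv_hz hg]
  rfl

theorem contDiffAt_hz {n N : ℕ} {g : EE n → EE N} {x : EE n} {k : ℕ∞ω}
    (hg : ContDiffAt ℝ k g x) (z : EE N) : ContDiffAt ℝ k (hz g z) x :=
  hg.continuousLinearMap_comp (innerSL ℝ z : EE N →L[ℝ] ℝ)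

theorem B1_ev {E F : Type*} [NormedAddCommGroup E] [NormedSpace ℝ E] [NormedAddCommGroup F]
    [NormedSpace ℝ F] {g : E → F} {x : E} (hg : ContDiffAt ℝ 2 g x) :
    ∀ᶠ y in 𝓝 x, DifferentiableAt ℝ g y := by
  filter_upwards [hg.eventually (by simp)] with y hy
  exact hy.differentiableAt (by simp)

theorem B1_fd {E F : Type*} [NormedAddCommGroup E] [NormedSpace ℝ E] [NormedAddCommGroup F]
    [NormedSpace ℝ F] {g : E → F} {x : E} (hg : ContDiffAt ℝ 2 g x) :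
    HasFDerivAt (fderiv ℝ g) (fderiv ℝ (fderiv ℝ g) x) x := by
  have h1 : ContDiffAt ℝ 1 (fderiv ℝ g) x := hg.fderiv_right (by norm_num)
  exact (h1.differentiableAt (by simp)).hasFDerivAt

theorem fderiv2_hz {n N : ℕ} {g : EE n → EE N} {x : EE n} (hg : ContDiffAt ℝ 2 g x)
    (z : EE N) (u v : EE n) :
    fderiv ℝ (fderiv ℝ (hz g z)) x u v = ⟪z, fderiv ℝ (fderiv ℝ g) x u v⟫_ℝ := by
  have h1 : fderiv ℝ (hz g z) =ᶠ[𝓝 x]
      fun y => (ContinuousLinearMap.compL ℝ (EE n) (EE N) ℝ (innerSL ℝ z)) (fderiv ℝ g y) := by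
    filter_upwards [B1_ev hg] with y hy
    exact fderiv_hz hy z
  have h2 : HasFDerivAt
      (fun y => (ContinuousLinearMap.compL ℝ (EE n) (EE N) ℝ (innerSL ℝ z)) (fderiv ℝ g y))
      ((ContinuousLinearMap.compL ℝ (EE n) (EE N) ℝ (innerSL ℝ z)).comp
        (fderiv ℝ (fderiv ℝ g) x)) x :=
    (ContinuousLinearMap.compL ℝ (EE n) (EE N) ℝ (innerSL ℝ z)).hasFDerivAt.comp x (B1_fd hg)
  rw [h1.fderiv_eq, h2.fderiv]
  rfl

theorem fderiv2_symm {n : ℕ} {h : EE n → ℝ} {x : EE n} (hh : ContDiffAt ℝ 2 h x) (u v : EE n) :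
    fderiv ℝ (fderiv ℝ h) x u v = fderiv ℝ (fderiv ℝ h) x v u :=
  hh.isSymmSndFDerivAt (by simp) u v

/-- chain rule for the second derivative at a critical point -/
theorem second_chain {n : ℕ} {h : EE n → ℝ} {τ : EE n → EE n} {x0 : EE n}
    (hτ : ContDiffAt ℝ 2 τ x0) (hh : ContDiffAt ℝ 2 h (τ x0)) (h0 : fderiv ℝ h (τ x0) = 0)
    (u v : EE n) :
    fderiv ℝ (fderiv ℝ (fun x => h (τ x))) x0 u v =
      fderiv ℝ (fderiv ℝ h) (τ x0) (fderiv ℝ τ x0 u) (fderiv ℝ τ x0 v) := by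
  have h1 : fderiv ℝ (fun x => h (τ x)) =ᶠ[𝓝 x0]
      fun x => (fderiv ℝ h (τ x)).comp (fderiv ℝ τ x) := by
    filter_upwards [B1_ev hτ, hτ.continuousAt.eventually (B1_ev hh)] with y hy1 hy2
    exact fderiv_comp y hy2 hy1
  have h2 : HasFDerivAt (fun x => fderiv ℝ h (τ x))
      ((fderiv ℝ (fderiv ℝ h) (τ x0)).comp (fderiv ℝ τ x0)) x0 :=
    (B1_fd hh).comp x0 (hτ.differentiableAt (by simp)).hasFDerivAt
  have h3 := h2.clm_comp (B1_fd hτ)
  rw [h1.fderiv_eq, h3.fderiv, h0]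
  simp

/-- PROOF.  `IsLocalMax.fderiv_eq_zero`; if `D²h(v, v) > 0` then `t ↦ h (x0 + t v)` has a strict local minimum at `0` by
`isLocalMin_of_deriv_deriv_pos` (or by the mean value theorem), and a local maximum, so it is locally constant, so its second derivative is `0`. -/
theorem local_max {n : ℕ} {h : EE n → ℝ} {x0 : EE n} (hh : ContDiffAt ℝ 2 h x0)
    (hm : IsLocalMax h x0) : fderiv ℝ h x0 = 0 ∧ ∀ v, fderiv ℝ (fderiv ℝ h) x0 v v ≤ 0 := by
  refine ⟨hm.fderiv_eq_zero, fun v => ?_⟩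
  by_contra hpos
  push Not at hpos
  let l : ℝ → EE n := fun t => x0 + t • v
  have hl : ∀ t, HasDerivAt l v t := by
    intro t
    have h1 : HasDerivAt (fun t : ℝ => x0 + t • v) ((1 : ℝ) • v) t :=
      ((hasDerivAt_id t).smul_const v).const_add x0
    rw [one_smul] at h1
    exact h1
  have hl0 : l 0 = x0 := by simp [l]
  have hlc : ContinuousAt l 0 := (hl 0).continuousAt
  have hev : ∀ᶠ t in 𝓝 (0 : ℝ), DifferentiableAt ℝ h (l t) := by
    refine hlc.eventually ?_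
    rw [hl0]
    exact B1_ev hh
  have hd1 : deriv (fun t => h (l t)) =ᶠ[𝓝 0] fun t => fderiv ℝ h (l t) v := by
    filter_upwards [hev] with t ht
    exact (ht.hasFDerivAt.comp_hasDerivAt t (hl t)).deriv
  have hd2 : HasDerivAt (fun t => fderiv ℝ h (l t) v) (fderiv ℝ (fderiv ℝ h) x0 v v) 0 := by
    have h1 : HasFDerivAt (fderiv ℝ h) (fderiv ℝ (fderiv ℝ h) x0) (l 0) := by
      rw [hl0]
      exact B1_fd hh
    have h2 := h1.comp_hasDerivAt 0 (hl 0)
    have h3 := h2.clm_apply (hasDerivAt_const (0 : ℝ) v)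
    simpa using h3
  have hdd : deriv (deriv fun t => h (l t)) 0 = fderiv ℝ (fderiv ℝ h) x0 v v := by
    rw [hd1.deriv_eq, hd2.deriv]
  have hd0 : deriv (fun t => h (l t)) 0 = 0 := by
    rw [hd1.eq_of_nhds, hl0, hm.fderiv_eq_zero]
    rfl
  have hcont : ContinuousAt (fun t => h (l t)) 0 := by
    have : ContinuousAt h (l 0) := by
      rw [hl0]
      exact hh.continuousAt
    exact ContinuousAt.comp this hlc
  have hmin : IsLocalMin (fun t => h (l t)) 0 :=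
    isLocalMin_of_deriv_deriv_pos (by rw [hdd]; exact hpos) hd0 hcont
  have hmax : ∀ᶠ t in 𝓝 (0 : ℝ), h (l t) ≤ h (l 0) := by
    have h1 : ∀ᶠ y in 𝓝 (l 0), h y ≤ h (l 0) := by
      rw [hl0]
      exact hm
    exact hlc.eventually h1
  have hc : (fun t => h (l t)) =ᶠ[𝓝 0] fun _ => h (l 0) := by
    filter_upwards [hmin, hmax] with t h1 h2
    exact le_antisymm h2 h1
  have h0 : deriv (deriv fun t => h (l t)) 0 = 0 := by
    rw [hc.deriv.deriv_eq]
    simp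
  rw [hdd] at h0
  exact hpos.ne' h0

end Pool.TI52
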