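import Pool.Agent.LibTI52.TI_A1
import Pool.Agent.LibTI52.TI_B1

/-! TI52, file B2: nondegenerate critical points persist (calculus version). -/

set_option autoImplicit false

open scoped Manifold ContDiff InnerProductSpace Topology

namespace Pool.TI52

/-- the second derivative of `hz g z` at `x`, as a function of `(z, x)` -/
noncomputable def b2B {n N : ℕ} (g : EE n → EE N) (p : EE N × EE n) : Bil n :=
  (ContinuousLinearMap.compL ℝ (EE n) (EE N) ℝ (innerSL ℝ p.1)).comp (fderiv ℝ (fderiv ℝ g) p.2)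

theorem b2B_apply {n N : ℕ} (g : EE n → EE N) (p : EE N × EE n) (u v : EE n) :
    b2B g p u v = ⟪p.1, fderiv ℝ (fderiv ℝ g) p.2 u v⟫_ℝ := rfl

theorem b2B_eq {n N : ℕ} {g : EE n → EE N} {x : EE n} (hg : ContDiffAt ℝ 2 g x) (z : EE N) :
    b2B g (z, x) = fderiv ℝ (fderiv ℝ (hz g z)) x := by
  ext u v
  rw [b2B_apply, fderiv2_hz hg]

theorem b2B_cont {n N : ℕ} {g : EE n → EE N} {x : EE n} (hg : ContDiffAt ℝ 2 g x) (z : EE N) :
    ContinuousAt (b2B g) (z, x) := by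
  have h1 : ContDiffAt ℝ 1 (fderiv ℝ g) x := hg.fderiv_right (by norm_num)
  have h2 : ContDiffAt ℝ 0 (fderiv ℝ (fderiv ℝ g)) x := h1.fderiv_right (by norm_num)
  have h3 : ContinuousAt (fun p : EE N × EE n => fderiv ℝ (fderiv ℝ g) p.2) (z, x) :=
    ContinuousAt.comp (f := fun p : EE N × EE n => p.2) h2.continuousAt continuousAt_snd
  have h4 : ContinuousAt (fun p : EE N × EE n =>
      ContinuousLinearMap.compL ℝ (EE n) (EE N) ℝ (innerSL ℝ p.1)) (z, x) := by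
    have : Continuous (fun p : EE N × EE n =>
      ContinuousLinearMap.compL ℝ (EE n) (EE N) ℝ (innerSL ℝ p.1)) :=
      (ContinuousLinearMap.continuous _).comp
        ((ContinuousLinearMap.continuous _).comp continuous_fst)
    exact this.continuousAt
  exact h4.clm_comp h3

theorem b2_finrank (n : ℕ) : Module.finrank ℝ (EE n →L[ℝ] ℝ) = Module.finrank ℝ (EE n) := by
  rw [← LinearEquiv.finrank_eq (LinearMap.toContinuousLinearMap (𝕜 := ℝ) (E := EE n) (F' := ℝ))]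
  exact Subspace.dual_finrank_eq

theorem b2_surj {n : ℕ} {B : Bil n} (hB : Nondeg B) : Function.Surjective B := by
  have hinj : Function.Injective (B : EE n →ₗ[ℝ] (EE n →L[ℝ] ℝ)) := by
    rw [← LinearMap.ker_eq_bot, LinearMap.ker_eq_bot']
    intro v hv
    apply hB v
    intro w
    have h : B v = 0 := hv
    rw [h]
    rfl
  exact (LinearMap.injective_iff_surjective_of_finrank_eq_finrank (b2_finrank n).symm).1 hinj

/-- PROOF.  `G (z, x) = (z, D(hz g z)(x))`, `G : EE N × EE n → EE N × (EE n →L ℝ)`, is strictly differentiable at `(z0, x1)` (`fderiv_hz`;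
`fderiv ℝ g` is `C¹` at `x1`), with derivative `(ζ, u) ↦ (ζ, D(hz g ζ)(x1) + D²(hz g z0)(x1) u)`, which is surjective because
`D²(hz g z0)(x1) : EE n → (EE n →L ℝ)` is injective (`HasIndex.nondeg`), hence surjective by dimensions.  So
(`HasStrictFDerivAt.map_nhds_eq_of_surj`) `G` maps neighbourhoods of `(z0, x1)` onto neighbourhoods of `(z0, 0)`.  Apply it to the neighbourhood of the `(z, x)`
with `x ∈ U` and `HasIndex (D²(hz g z)(x)) i` (`hasIndex_eventually`, continuity of `(z, x) ↦ D²(hz g z)(x)` at `(z0, x1)`, `fderiv2_hz`;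
`ContDiffAt ℝ 2 g x` holds near `x1`). -/
theorem persist_local {n N : ℕ} (g : EE n → EE N) (x1 : EE n) (hg : ContDiffAt ℝ 2 g x1)
    (z0 : EE N) (h0 : fderiv ℝ (hz g z0) x1 = 0) (i : ℕ)
    (hi : HasIndex (fderiv ℝ (fderiv ℝ (hz g z0)) x1) i) (U : Set (EE n)) (hU : U ∈ 𝓝 x1) :
    ∀ᶠ z in 𝓝 z0, ∃ x ∈ U, fderiv ℝ (hz g z) x = 0 ∧
      HasIndex (fderiv ℝ (fderiv ℝ (hz g z)) x) i := by
  have hsym : ∀ u v, fderiv ℝ (fderiv ℝ (hz g z0)) x1 u v =
      fderiv ℝ (fderiv ℝ (hz g z0)) x1 v u := fun u v => fderiv2_symm (contDiffAt_hz hg z0) u v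
  have hnd : Nondeg (fderiv ℝ (fderiv ℝ (hz g z0)) x1) := hi.nondeg hsym
  have hB0 : b2B g (z0, x1) = fderiv ℝ (fderiv ℝ (hz g z0)) x1 := b2B_eq hg z0
  have hsurj : Function.Surjective (b2B g (z0, x1)) := by
    rw [hB0]
    exact b2_surj hnd
  -- the map G
  let G : EE N × EE n → EE N × (EE n →L[ℝ] ℝ) :=
    fun p => (p.1, (innerSL ℝ p.1 : EE N →L[ℝ] ℝ).comp (fderiv ℝ g p.2))
  have h1 : ContDiffAt ℝ 1 (fderiv ℝ g) x1 := hg.fderiv_right (by norm_num)
  have h1' : HasStrictFDerivAt (fderiv ℝ g) (fderiv ℝ (fderiv ℝ g) x1) x1 :=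
    h1.hasStrictFDerivAt (by norm_num)
  have hc : HasStrictFDerivAt (fun p : EE N × EE n => (innerSL ℝ p.1 : EE N →L[ℝ] ℝ))
      ((innerSL ℝ : EE N →L[ℝ] EE N →L[ℝ] ℝ).comp (ContinuousLinearMap.fst ℝ (EE N) (EE n)))
      (z0, x1) :=
    ((innerSL ℝ : EE N →L[ℝ] EE N →L[ℝ] ℝ).comp
      (ContinuousLinearMap.fst ℝ (EE N) (EE n))).hasStrictFDerivAt
  have hd : HasStrictFDerivAt (fun p : EE N × EE n => fderiv ℝ g p.2)
      ((fderiv ℝ (fderiv ℝ g) x1).comp (ContinuousLinearMap.snd ℝ (EE N) (EE n))) (z0, x1) :=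
    HasStrictFDerivAt.comp (z0, x1) (f := fun p : EE N × EE n => p.2) h1' hasStrictFDerivAt_snd
  have hG : HasStrictFDerivAt G _ (z0, x1) :=
    HasStrictFDerivAt.prodMk hasStrictFDerivAt_fst (hc.clm_comp hd)
  have hmap := hG.map_nhds_eq_of_surj (by
    rw [LinearMap.range_eq_top]
    rintro ⟨ζ, φ⟩
    obtain ⟨u, hu⟩ := hsurj (φ - (innerSL ℝ ζ : EE N →L[ℝ] ℝ).comp (fderiv ℝ g x1))
    refine ⟨(ζ, u), ?_⟩
    apply Prod.ext
    · rfl
    · ext v
      have hu' := congrArg (fun ψ : EE n →L[ℝ] ℝ => ψ v) hu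
      simp only [b2B_apply, sub_apply, ContinuousLinearMap.comp_apply] at hu'
      show ⟪z0, fderiv ℝ (fderiv ℝ g) x1 u v⟫_ℝ + ⟪ζ, fderiv ℝ g x1 v⟫_ℝ = φ v
      rw [hu']
      show φ v - ⟪ζ, fderiv ℝ g x1 v⟫_ℝ + ⟪ζ, fderiv ℝ g x1 v⟫_ℝ = φ v
      ring)
  have hS : ∀ᶠ p : EE N × EE n in 𝓝 (z0, x1), p.2 ∈ U ∧ ContDiffAt ℝ 2 g p.2 ∧
      HasIndex (b2B g p) i := by
    have e1 : ∀ᶠ p : EE N × EE n in 𝓝 (z0, x1), p.2 ∈ U :=
      (continuousAt_snd (p := (z0, x1))).eventually hU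
    have e2 : ∀ᶠ p : EE N × EE n in 𝓝 (z0, x1), ContDiffAt ℝ 2 g p.2 :=
      (continuousAt_snd (p := (z0, x1))).eventually (hg.eventually (by simp))
    have e3 : ∀ᶠ p : EE N × EE n in 𝓝 (z0, x1), HasIndex (b2B g p) i := by
      have e4 : ∀ᶠ B in 𝓝 (b2B g (z0, x1)), HasIndex B i := by
        rw [hB0]
        exact hasIndex_eventually hi
      exact (b2B_cont hg z0).eventually e4
    filter_upwards [e1, e2, e3] with p a b c
    exact ⟨a, b, c⟩
  have him : G '' {p : EE N × EE n | p.2 ∈ U ∧ ContDiffAt ℝ 2 g p.2 ∧ HasIndex (b2B g p) i} ∈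
      𝓝 (G (z0, x1)) := by
    rw [← hmap]
    exact Filter.image_mem_map hS
  have hG0 : G (z0, x1) = (z0, 0) := by
    apply Prod.ext
    · rfl
    · show (innerSL ℝ z0 : EE N →L[ℝ] ℝ).comp (fderiv ℝ g x1) = 0
      rw [← fderiv_hz (hg.differentiableAt (by norm_num)) z0]
      exact h0
  rw [hG0] at him
  have hcont : ContinuousAt (fun z : EE N => (z, (0 : EE n →L[ℝ] ℝ))) z0 :=
    (continuous_id.prodMk continuous_const).continuousAt
  filter_upwards [hcont.eventually him] with z hz'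
  obtain ⟨⟨z', x⟩, ⟨hx, hgx, hI⟩, hGz⟩ := hz'
  have hzz : z' = z := congrArg Prod.fst hGz
  subst hzz
  refine ⟨x, hx, ?_, ?_⟩
  · rw [fderiv_hz (hgx.differentiableAt (by norm_num)) z']
    exact congrArg Prod.snd hGz
  · rw [← b2B_eq hgx z']
    exact hI

end Pool.TI52
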