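import Pool.Agent.LibTI52.TI_B1

/-! TI52, file B3: for almost all `z` the height function of `z` has only nondegenerate critical points
(calculus version, from the equidimensional Sard lemma of Mathlib). -/

set_option autoImplicit false

open scoped Manifold ContDiff InnerProductSpace Topology

namespace Pool.TI52

open MeasureTheory

/-- the adjoint as a continuous linear map -/
noncomputable def B3_adj (n N : ℕ) : (EE n →L[ℝ] EE N) →L[ℝ] (EE N →L[ℝ] EE n) :=
  LinearMap.toContinuousLinearMap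
    { toFun := fun T => ContinuousLinearMap.adjoint T
      map_add' := fun S T => map_add _ S T
      map_smul' := fun r T => by simp }

theorem B3_adj_inner {n N : ℕ} (T : EE n →L[ℝ] EE N) (y : EE N) (v : EE n) :
    ⟪B3_adj n N T y, v⟫_ℝ = ⟪y, T v⟫_ℝ :=
  ContinuousLinearMap.adjoint_inner_left T v y

/-- PROOF.  `A x = fderiv ℝ g x`, `A1 = A x1` (injective), `D x = (A x)† ∘ A1 : EE n →L EE n` (`†` = adjoint), so `D x1 = A1† A1` is invertible, and
`D x` is invertible for `x` near `x1`.  For `y : EE N` let `c y = (D x1)⁻¹ (A1† y)`, `b y = y - A1 (c y)` (so `A1† (b y) = 0`), `X y = x1 + c y`, and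
`Ψ y = b y - A1 ((D (X y))⁻¹ ((A (X y))† (b y)))`.  Then `(A (X y))† (Ψ y) = 0` if `D (X y)` is invertible, and
`b (Ψ y) = b y`.  If `x ∈ U` and `D(hz g z)(x) = 0`, i.e. `(A x)† z = 0`, then `z = Ψ y` for `y = b z + A1 (x - x1)` (`b y = b z`, `c y = x - x1`,
`X y = x`; `z - b z = A1 (c z)`, and `(A x)† z = 0` gives `D x (c z) = - (A x)† (b z)`).
`Ψ` is differentiable at these `y` (for `x` near `x1`: `ContDiffAt ℝ 2 g x`).  Suppose `D²(hz g z)(x) v = 0`, `v ≠ 0`.  Differentiate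
`(A (X y'))† (Ψ y') = 0` at `y` in the direction `η = A1 v` (`c η = v`, `b η = 0`): the first term is
`w ↦ ⟪z, D²g(x) v w⟫ = 0`, so `(A x)† (Ψ' η) = 0`; and `b (Ψ' η) = b η = 0`, so `Ψ' η = A1 c'` with `D x c' = 0`, `c' = 0`.  So `Ψ' η = 0`, `η ≠ 0` and
`det Ψ' = 0`.  Apply `addHaar_image_eq_zero_of_det_fderivWithin_eq_zero` to `Ψ` on the set of these `y`. -/
theorem sard_local {n N : ℕ} (g : EE n → EE N) (x1 : EE n) (hg : ContDiffAt ℝ 2 g x1)
    (hinj : Function.Injective (fderiv ℝ g x1)) :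
    ∃ U ∈ 𝓝 x1, volume {z : EE N | ∃ x ∈ U, fderiv ℝ (hz g z) x = 0 ∧
      ¬ Nondeg (fderiv ℝ (fderiv ℝ (hz g z)) x)} = 0 := by
  obtain ⟨A1, hA1⟩ : ∃ A1 : EE n →L[ℝ] EE N, A1 = fderiv ℝ g x1 := ⟨_, rfl⟩
  rw [← hA1] at hinj
  obtain ⟨D, hD⟩ : ∃ D : EE n → (EE n →L[ℝ] EE n),
      D = fun x => (B3_adj n N (fderiv ℝ g x)).comp A1 := ⟨_, rfl⟩
  have hDap : ∀ x v, D x v = B3_adj n N (fderiv ℝ g x) (A1 v) := by
    intro x v
    rw [hD]
    rfl
  -- `D x1` is invertible
  have hD1inj : Function.Injective (D x1) := by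
    refine (injective_iff_map_eq_zero (D x1)).2 fun v hv => ?_
    have h1 : ⟪D x1 v, v⟫_ℝ = ⟪A1 v, A1 v⟫_ℝ := by
      rw [hDap, B3_adj_inner, ← hA1]
    rw [hv, inner_zero_left] at h1
    exact (injective_iff_map_eq_zero A1).1 hinj v (inner_self_eq_zero.1 h1.symm)
  have hD1bij : Function.Bijective (D x1) :=
    ⟨hD1inj, (LinearMap.injective_iff_surjective (f := (D x1 : EE n →ₗ[ℝ] EE n))).1 hD1inj⟩
  have hD1u : IsUnit (D x1) := ContinuousLinearMap.isUnit_iff_bijective.2 hD1bij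
  obtain ⟨J, hJ⟩ : ∃ J : EE n →L[ℝ] EE n, J = Ring.inverse (D x1) := ⟨_, rfl⟩
  have hJD : ∀ v, J (D x1 v) = v := by
    intro v
    have h1 : J * D x1 = 1 := by
      rw [hJ]
      exact Ring.inverse_mul_cancel _ hD1u
    exact congrArg (fun L : EE n →L[ℝ] EE n => L v) h1
  have hDJ : ∀ v, D x1 (J v) = v := by
    intro v
    have h1 : D x1 * J = 1 := by
      rw [hJ]
      exact Ring.mul_inverse_cancel _ hD1u
    exact congrArg (fun L : EE n →L[ℝ] EE n => L v) h1
  obtain ⟨c, hc⟩ : ∃ c : EE N →L[ℝ] EE n, c = J.comp (B3_adj n N A1) := ⟨_, rfl⟩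
  have hcA : ∀ v, c (A1 v) = v := by
    intro v
    have h1 : c (A1 v) = J (B3_adj n N A1 (A1 v)) := by rw [hc]; rfl
    have h2 : B3_adj n N A1 (A1 v) = D x1 v := by rw [hDap, ← hA1]
    rw [h1, h2, hJD]
  obtain ⟨b, hb⟩ : ∃ b : EE N →L[ℝ] EE N, b = ContinuousLinearMap.id ℝ (EE N) - A1.comp c :=
    ⟨_, rfl⟩
  have hbap : ∀ y, b y = y - A1 (c y) := by
    intro y
    rw [hb]
    rfl
  have hbA : ∀ v, b (A1 v) = 0 := by
    intro v
    rw [hbap, hcA, sub_self]
  have hcb : ∀ y, c (b y) = 0 := by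
    intro y
    rw [hbap, map_sub, hcA, sub_self]
  have hbb : ∀ y, b (b y) = b y := by
    intro y
    rw [hbap (b y), hcb, map_zero, sub_zero]
  obtain ⟨X, hX⟩ : ∃ X : EE N → EE n, X = fun y => x1 + c y := ⟨_, rfl⟩
  obtain ⟨Ψ, hΨ⟩ : ∃ Ψ : EE N → EE N, Ψ = fun y =>
      b y - A1 (Ring.inverse (D (X y)) (B3_adj n N (fderiv ℝ g (X y)) (b y))) := ⟨_, rfl⟩
  have hXd : ∀ y, HasFDerivAt X c y := by
    intro y
    rw [hX]
    exact c.hasFDerivAt.const_add x1
  -- derivatives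
  have hAd : ∀ y, ContDiffAt ℝ 2 g (X y) → HasFDerivAt (fun y => fderiv ℝ g (X y))
      ((fderiv ℝ (fderiv ℝ g) (X y)).comp c) y := fun y hy => (B1_fd hy).comp y (hXd y)
  have hTd : ∀ y, ContDiffAt ℝ 2 g (X y) →
      DifferentiableAt ℝ (fun y => B3_adj n N (fderiv ℝ g (X y))) y := fun y hy =>
    (B3_adj n N).differentiableAt.comp y (hAd y hy).differentiableAt
  have hDd : ∀ y, ContDiffAt ℝ 2 g (X y) → DifferentiableAt ℝ (fun y => D (X y)) y := by
    intro y hy
    rw [hD]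
    exact (hTd y hy).clm_comp (differentiableAt_const A1)
  have hΨd : ∀ y, ContDiffAt ℝ 2 g (X y) → IsUnit (D (X y)) → DifferentiableAt ℝ Ψ y := by
    intro y hy hu
    have h0 : DifferentiableAt ℝ (Ring.inverse : (EE n →L[ℝ] EE n) → (EE n →L[ℝ] EE n))
        (D (X y)) := differentiableAt_inverse hu
    have h1 : DifferentiableAt ℝ (fun y => Ring.inverse (D (X y))) y := by
      have h3 := DifferentiableAt.comp (𝕜 := ℝ)
        (g := (Ring.inverse : (EE n →L[ℝ] EE n) → (EE n →L[ℝ] EE n))) y h0 (hDd y hy)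
      exact h3
    have h2 : DifferentiableAt ℝ (fun y => B3_adj n N (fderiv ℝ g (X y)) (b y)) y :=
      (hTd y hy).clm_apply b.differentiableAt
    rw [hΨ]
    exact b.differentiableAt.sub (A1.differentiableAt.comp y (h1.clm_apply h2))
  -- algebraic identities
  have hbΨ : ∀ y, b (Ψ y) = b y := by
    intro y
    have h1 : Ψ y = b y - A1 (Ring.inverse (D (X y)) (B3_adj n N (fderiv ℝ g (X y)) (b y))) := by
      rw [hΨ]
    rw [h1, map_sub, hbb, hbA, sub_zero]
  have hinv : ∀ x, IsUnit (D x) → ∀ v, D x (Ring.inverse (D x) v) = v := by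
    intro x hu v
    have h1 : D x * Ring.inverse (D x) = 1 := Ring.mul_inverse_cancel _ hu
    exact congrArg (fun L : EE n →L[ℝ] EE n => L v) h1
  have hinv2 : ∀ x, IsUnit (D x) → ∀ v, Ring.inverse (D x) (D x v) = v := by
    intro x hu v
    have h1 : Ring.inverse (D x) * D x = 1 := Ring.inverse_mul_cancel _ hu
    exact congrArg (fun L : EE n →L[ℝ] EE n => L v) h1
  have hAΨ : ∀ y, IsUnit (D (X y)) → B3_adj n N (fderiv ℝ g (X y)) (Ψ y) = 0 := by
    intro y hu
    have h1 : Ψ y = b y - A1 (Ring.inverse (D (X y)) (B3_adj n N (fderiv ℝ g (X y)) (b y))) := by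
      rw [hΨ]
    rw [h1, map_sub, ← hDap, hinv _ hu, sub_self]
  -- the neighbourhood
  obtain ⟨U, hU⟩ : ∃ U : Set (EE n), U = {x | ContDiffAt ℝ 2 g x ∧ IsUnit (D x)} := ⟨_, rfl⟩
  have hDc : ContinuousAt D x1 := by
    have h1 : DifferentiableAt ℝ (fun x => B3_adj n N (fderiv ℝ g x)) x1 :=
      (B3_adj n N).differentiableAt.comp x1 (B1_fd hg).differentiableAt
    rw [hD]
    exact (h1.clm_comp (differentiableAt_const A1)).continuousAt
  have hUn : U ∈ 𝓝 x1 := by
    rw [hU]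
    exact (hg.eventually (by simp)).and (hDc.eventually (Units.isOpen.mem_nhds hD1u))
  refine ⟨U, hUn, ?_⟩
  have hsub : {z : EE N | ∃ x ∈ U, fderiv ℝ (hz g z) x = 0 ∧
      ¬ Nondeg (fderiv ℝ (fderiv ℝ (hz g z)) x)} ⊆
      Ψ '' {y | X y ∈ U ∧ (fderiv ℝ Ψ y).det = 0} := by
    rintro z ⟨x, hx, hz0, hnd⟩
    have hx' : ContDiffAt ℝ 2 g x ∧ IsUnit (D x) := by
      rw [hU] at hx
      exact hx
    have hAz : B3_adj n N (fderiv ℝ g x) z = 0 := by
      refine ext_inner_right ℝ fun v => ?_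
      rw [B3_adj_inner, ← fderiv_hz_apply (hx'.1.differentiableAt (by simp)) z v, hz0,
        inner_zero_left]
      rfl
    obtain ⟨y, hy⟩ : ∃ y, y = b z + A1 (x - x1) := ⟨_, rfl⟩
    have hby : b y = b z := by rw [hy, map_add, hbb, hbA, add_zero]
    have hcy : c y = x - x1 := by rw [hy, map_add, hcb, hcA, zero_add]
    have hXy : X y = x := by
      rw [hX]
      change x1 + c y = x
      rw [hcy, add_sub_cancel]
    have hzdec : z = b z + A1 (c z) := by rw [hbap, sub_add_cancel]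
    have hΨy : Ψ y = z := by
      have h1 : Ψ y = b y - A1 (Ring.inverse (D (X y)) (B3_adj n N (fderiv ℝ g (X y)) (b y))) := by
        rw [hΨ]
      have h2 : B3_adj n N (fderiv ℝ g x) (b z) = -D x (c z) := by
        rw [hDap, eq_neg_iff_add_eq_zero, ← map_add, ← hzdec, hAz]
      rw [h1, hby, hXy, h2, map_neg, hinv2 _ hx'.2, map_neg, sub_neg_eq_add, ← hzdec]
    refine ⟨y, ⟨by rw [hXy]; exact hx, ?_⟩, hΨy⟩
    -- the degenerate direction
    unfold Nondeg at hnd
    push Not at hnd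
    obtain ⟨v, hv, hv0⟩ := hnd
    have hyC : ContDiffAt ℝ 2 g (X y) := by rw [hXy]; exact hx'.1
    have hyu : IsUnit (D (X y)) := by rw [hXy]; exact hx'.2
    have hΨ' : HasFDerivAt Ψ (fderiv ℝ Ψ y) y := (hΨd y hyC hyu).hasFDerivAt
    obtain ⟨P, hP⟩ : ∃ P : EE N →L[ℝ] EE N, P = fderiv ℝ Ψ y := ⟨_, rfl⟩
    rw [← hP] at hΨ' ⊢
    have hbP : b (P (A1 v)) = 0 := by
      have h1 : HasFDerivAt (fun y => b (Ψ y)) (b.comp P) y := b.hasFDerivAt.comp y hΨ'
      have h2 : (fun y => b (Ψ y)) = fun y => b y := funext hbΨ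
      rw [h2] at h1
      have h3 : b.comp P = b := h1.unique b.hasFDerivAt
      have h4 : b.comp P (A1 v) = b (A1 v) := by rw [h3]
      rw [hbA] at h4
      exact h4
    have hAP : B3_adj n N (fderiv ℝ g x) (P (A1 v)) = 0 := by
      refine ext_inner_right ℝ fun w => ?_
      rw [B3_adj_inner, inner_zero_left]
      have h1 : HasFDerivAt (fun y => fderiv ℝ g (X y) w)
          ((((fderiv ℝ (fderiv ℝ g) (X y)).comp c)).flip w) y := by
        have h2 := (hAd y hyC).clm_apply (hasFDerivAt_const w y)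
        have h3 : (fderiv ℝ g (X y)).comp (0 : EE N →L[ℝ] EE n) +
            ((fderiv ℝ (fderiv ℝ g) (X y)).comp c).flip w =
            ((fderiv ℝ (fderiv ℝ g) (X y)).comp c).flip w := by
          rw [ContinuousLinearMap.comp_zero, zero_add]
        rw [h3] at h2
        exact h2
      have h4 := hΨ'.inner ℝ h1
      have hev : (fun y => ⟪Ψ y, fderiv ℝ g (X y) w⟫_ℝ) =ᶠ[𝓝 y] fun _ => (0 : ℝ) := by
        have hop : ∀ᶠ y' in 𝓝 y, IsUnit (D (X y')) :=
          (hDd y hyC).continuousAt.eventually (Units.isOpen.mem_nhds hyu)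
        filter_upwards [hop] with y' hy'
        rw [← B3_adj_inner, hAΨ y' hy', inner_zero_left]
      have h5 := (h4.congr_of_eventuallyEq hev.symm).unique (hasFDerivAt_const (0 : ℝ) y)
      have h6 := congrArg (fun L : EE N →L[ℝ] ℝ => L (A1 v)) h5
      have h7 : ⟪Ψ y, fderiv ℝ (fderiv ℝ g) (X y) (c (A1 v)) w⟫_ℝ +
          ⟪P (A1 v), fderiv ℝ g (X y) w⟫_ℝ = 0 := by
        simpa using h6
      rw [hcA, hΨy, hXy, ← fderiv2_hz hx'.1 z v w, hv w, zero_add] at h7
      exact h7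
    have hPv : P (A1 v) = 0 := by
      have h1 : P (A1 v) = A1 (c (P (A1 v))) := by
        have h2 := hbap (P (A1 v))
        rw [hbP] at h2
        exact (sub_eq_zero.1 h2.symm)
      have h3 : D x (c (P (A1 v))) = 0 := by
        rw [hDap, ← h1, hAP]
      have h4 : c (P (A1 v)) = 0 := by
        rw [← hinv2 x hx'.2 (c (P (A1 v))), h3, map_zero]
      rw [h1, h4, map_zero]
    by_contra hdet
    have h1 : IsUnit (P : EE N →ₗ[ℝ] EE N) :=
      (LinearMap.isUnit_iff_isUnit_det _).2 (isUnit_iff_ne_zero.2 hdet)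
    have h2 : Function.Injective P := ((Module.End.isUnit_iff _).1 h1).1
    have h3 : A1 v = 0 := h2 (by rw [hPv, map_zero])
    exact hv0 ((injective_iff_map_eq_zero A1).1 hinj v h3)
  refine measure_mono_null hsub ?_
  refine addHaar_image_eq_zero_of_det_fderivWithin_eq_zero (f' := fun y => fderiv ℝ Ψ y) volume ?_
    fun y hy => hy.2
  intro y hy
  have h1 : ContDiffAt ℝ 2 g (X y) ∧ IsUnit (D (X y)) := by
    have h2 := hy.1
    rw [hU] at h2
    exact h2
  exact (hΨd y h1.1 h1.2).hasFDerivAt.hasFDerivWithinAt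

end Pool.TI52
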