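import Pool.Agent.LibTI52.TI_A1
import Pool.Agent.LibTI52.TI_B1

/-! TI52, file C1: charts. -/

set_option autoImplicit false

open scoped Manifold ContDiff InnerProductSpace Topology

namespace Pool.TI52

variable {n N : ℕ} {M : Type*} [TopologicalSpace M] [ChartedSpace (EE n) M]
  [IsManifold (𝓡 n) ∞ M]

omit [IsManifold (𝓡 n) ∞ M] in
theorem ht_eq (f : M → EE N) (z : EE N) (p : M) : ht n f z p = hz (loc n f p) z := rfl

theorem contMDiffAt_symm (p : M) (x : EE n) (hx : x ∈ (extChartAt (𝓡 n) p).target) :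
    ContMDiffAt 𝓘(ℝ, EE n) (𝓡 n) ∞ (extChartAt (𝓡 n) p).symm x :=
  (contMDiffOn_extChartAt_symm (n := ∞) p).contMDiffAt (extChartAt_target_mem_nhds' hx)

theorem contDiffAt_loc (f : M → EE N) (hf : ContMDiff (𝓡 n) 𝓘(ℝ, EE N) ∞ f) (p : M) (x : EE n)
    (hx : x ∈ (extChartAt (𝓡 n) p).target) : ContDiffAt ℝ 2 (loc n f p) x := by
  have h1 : ContMDiffAt (𝓡 n) 𝓘(ℝ, EE N) ∞ f ((extChartAt (𝓡 n) p).symm x) := hf.contMDiffAt
  have h3 : ContMDiffAt 𝓘(ℝ, EE n) 𝓘(ℝ, EE N) ∞ (f ∘ (extChartAt (𝓡 n) p).symm) x :=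
    h1.comp x (contMDiffAt_symm p x hx)
  have h4 : ContDiffAt ℝ ∞ (loc n f p) x := contMDiffAt_iff_contDiffAt.1 h3
  exact h4.of_le (by norm_cast)

theorem loc_injective (f : M → EE N) (hf : ContMDiff (𝓡 n) 𝓘(ℝ, EE N) ∞ f) (p : M)
    (hi : Function.Injective (mfderiv (𝓡 n) 𝓘(ℝ, EE N) f p)) :
    Function.Injective (fderiv ℝ (loc n f p) (extChartAt (𝓡 n) p p)) := by
  have h1 : MDifferentiableAt (𝓡 n) 𝓘(ℝ, EE N) f p := hf.contMDiffAt.mdifferentiableAt (by simp)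
  have h2 := h1.mfderiv
  rw [ModelWithCorners.range_eq_univ, fderivWithin_univ] at h2
  have h3 : writtenInExtChartAt (𝓡 n) 𝓘(ℝ, EE N) p f = loc n f p := by
    rw [writtenInExtChartAt, extChartAt_model_space_eq_id]
    rfl
  rw [h3] at h2
  rw [h2] at hi
  exact hi

/-- the change of charts: `τ = extChartAt q ∘ (extChartAt p).symm` at `x = extChartAt p q`.
(`contDiffWithinAt_ext_coord_change`, `range (𝓡 n) = univ`; the inverse change of charts gives invertibility of the derivative) -/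
theorem exists_change (p q : M) (hq : q ∈ (extChartAt (𝓡 n) p).source) :
    ∃ (τ : EE n → EE n) (T : EE n ≃L[ℝ] EE n),
      τ (extChartAt (𝓡 n) p q) = extChartAt (𝓡 n) q q ∧
      ContDiffAt ℝ 2 τ (extChartAt (𝓡 n) p q) ∧
      fderiv ℝ τ (extChartAt (𝓡 n) p q) = (T : EE n →L[ℝ] EE n) ∧
      ∀ᶠ x in 𝓝 (extChartAt (𝓡 n) p q),
        (extChartAt (𝓡 n) q).symm (τ x) = (extChartAt (𝓡 n) p).symm x := by
  set x0 : EE n := extChartAt (𝓡 n) p q with hx0
  set y0 : EE n := extChartAt (𝓡 n) q q with hy0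
  have hx0t : x0 ∈ (extChartAt (𝓡 n) p).target := (extChartAt (𝓡 n) p).map_source hq
  have hqq : q ∈ (extChartAt (𝓡 n) q).source := mem_extChartAt_source q
  have hy0t : y0 ∈ (extChartAt (𝓡 n) q).target := (extChartAt (𝓡 n) q).map_source hqq
  have ex : (extChartAt (𝓡 n) p).symm x0 = q := (extChartAt (𝓡 n) p).left_inv hq
  have ey : (extChartAt (𝓡 n) q).symm y0 = q := (extChartAt (𝓡 n) q).left_inv hqq
  let τ : EE n → EE n := fun x => extChartAt (𝓡 n) q ((extChartAt (𝓡 n) p).symm x)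
  let σ : EE n → EE n := fun x => extChartAt (𝓡 n) p ((extChartAt (𝓡 n) q).symm x)
  have hτ0 : τ x0 = y0 := by
    change extChartAt (𝓡 n) q ((extChartAt (𝓡 n) p).symm x0) = y0
    rw [ex]
  have hσ0 : σ y0 = x0 := by
    change extChartAt (𝓡 n) p ((extChartAt (𝓡 n) q).symm y0) = x0
    rw [ey]
  have key : ∀ (a b : M) (z : EE n), z ∈ (extChartAt (𝓡 n) a).target →
      (extChartAt (𝓡 n) a).symm z ∈ (extChartAt (𝓡 n) b).source →
      ContDiffAt ℝ 2 (fun x => extChartAt (𝓡 n) b ((extChartAt (𝓡 n) a).symm x)) z := by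
    intro a b z hz hb
    rw [extChartAt_source] at hb
    have h1 : ContMDiffAt (𝓡 n) 𝓘(ℝ, EE n) ∞ (extChartAt (𝓡 n) b)
        ((extChartAt (𝓡 n) a).symm z) := contMDiffAt_extChartAt' hb
    have h3 : ContMDiffAt 𝓘(ℝ, EE n) 𝓘(ℝ, EE n) ∞
        ((extChartAt (𝓡 n) b) ∘ (extChartAt (𝓡 n) a).symm) z :=
      h1.comp z (contMDiffAt_symm a z hz)
    have h4 : ContDiffAt ℝ ∞ (fun x => extChartAt (𝓡 n) b ((extChartAt (𝓡 n) a).symm x)) z :=
      contMDiffAt_iff_contDiffAt.1 h3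
    exact h4.of_le (by norm_cast)
  have hτc : ContDiffAt ℝ 2 τ x0 := key p q x0 hx0t (by rw [ex]; exact hqq)
  have hσc : ContDiffAt ℝ 2 σ y0 := key q p y0 hy0t (by rw [ey]; exact hq)
  have cp : Filter.Tendsto (extChartAt (𝓡 n) p).symm (𝓝 x0) (𝓝 q) := by
    have h := (contMDiffAt_symm p x0 hx0t).continuousAt
    rw [ContinuousAt, ex] at h
    exact h
  have cq : Filter.Tendsto (extChartAt (𝓡 n) q).symm (𝓝 y0) (𝓝 q) := by
    have h := (contMDiffAt_symm q y0 hy0t).continuousAt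
    rw [ContinuousAt, ey] at h
    exact h
  have n1 : ∀ᶠ x in 𝓝 x0, (extChartAt (𝓡 n) q).symm (τ x) = (extChartAt (𝓡 n) p).symm x := by
    filter_upwards [cp (extChartAt_source_mem_nhds' hqq)] with x hx
    exact (extChartAt (𝓡 n) q).left_inv hx
  have n2 : ∀ᶠ x in 𝓝 x0, σ (τ x) = x := by
    filter_upwards [n1, extChartAt_target_mem_nhds' hx0t] with x hx hxt
    change extChartAt (𝓡 n) p ((extChartAt (𝓡 n) q).symm (τ x)) = x
    rw [hx]
    exact (extChartAt (𝓡 n) p).right_inv hxt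
  have n3 : ∀ᶠ y in 𝓝 y0, τ (σ y) = y := by
    filter_upwards [cq (extChartAt_source_mem_nhds' hq), extChartAt_target_mem_nhds' hy0t] with
      y hy hyt
    change extChartAt (𝓡 n) q ((extChartAt (𝓡 n) p).symm
      (extChartAt (𝓡 n) p ((extChartAt (𝓡 n) q).symm y))) = y
    rw [(extChartAt (𝓡 n) p).left_inv hy]
    exact (extChartAt (𝓡 n) q).right_inv hyt
  have dτ : HasFDerivAt τ (fderiv ℝ τ x0) x0 :=
    (hτc.differentiableAt (by norm_num)).hasFDerivAt
  have dσ : HasFDerivAt σ (fderiv ℝ σ y0) y0 :=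
    (hσc.differentiableAt (by norm_num)).hasFDerivAt
  have i1 : (fderiv ℝ σ y0).comp (fderiv ℝ τ x0) = ContinuousLinearMap.id ℝ (EE n) := by
    have h1 : HasFDerivAt (σ ∘ τ) ((fderiv ℝ σ y0).comp (fderiv ℝ τ x0)) x0 := by
      refine HasFDerivAt.comp x0 ?_ dτ
      rw [hτ0]
      exact dσ
    have h2 : HasFDerivAt (σ ∘ τ) (ContinuousLinearMap.id ℝ (EE n)) x0 :=
      (hasFDerivAt_id x0).congr_of_eventuallyEq n2
    exact h1.unique h2
  have i2 : (fderiv ℝ τ x0).comp (fderiv ℝ σ y0) = ContinuousLinearMap.id ℝ (EE n) := by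
    have h1 : HasFDerivAt (τ ∘ σ) ((fderiv ℝ τ x0).comp (fderiv ℝ σ y0)) y0 := by
      refine HasFDerivAt.comp y0 ?_ dσ
      rw [hσ0]
      exact dτ
    have h2 : HasFDerivAt (τ ∘ σ) (ContinuousLinearMap.id ℝ (EE n)) y0 :=
      (hasFDerivAt_id y0).congr_of_eventuallyEq n3
    exact h1.unique h2
  refine ⟨τ, ContinuousLinearEquiv.equivOfInverse (fderiv ℝ τ x0) (fderiv ℝ σ y0)
    (fun v => by simpa using DFunLike.congr_fun i1 v)
    (fun v => by simpa using DFunLike.congr_fun i2 v), hτ0, hτc, ?_, n1⟩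
  ext v
  rfl

/-- critical points, nondegeneracy and index can be computed in any chart (`exists_change`, `second_chain`,
`hasIndex_congr`, `nondeg_congr`; `Filter.EventuallyEq.fderiv`) -/
theorem chart_change (f : M → EE N) (hf : ContMDiff (𝓡 n) 𝓘(ℝ, EE N) ∞ f) (p q : M)
    (hq : q ∈ (extChartAt (𝓡 n) p).source) (z : EE N) :
    (IsCrit n f z q ↔ fderiv ℝ (hz (loc n f p) z) (extChartAt (𝓡 n) p q) = 0) ∧
    (IsCrit n f z q →
      (Nondeg (Hess n f z q) ↔
        Nondeg (fderiv ℝ (fderiv ℝ (hz (loc n f p) z)) (extChartAt (𝓡 n) p q))) ∧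
      ∀ i, HasIndex (Hess n f z q) i ↔
        HasIndex (fderiv ℝ (fderiv ℝ (hz (loc n f p) z)) (extChartAt (𝓡 n) p q)) i) := by
  obtain ⟨τ, T, hτ0, hτc, hT, hn⟩ := exists_change p q hq
  set x0 : EE n := extChartAt (𝓡 n) p q with hx0
  have hx0t : x0 ∈ (extChartAt (𝓡 n) p).target := (extChartAt (𝓡 n) p).map_source hq
  have hcq : ContDiffAt ℝ 2 (hz (loc n f q) z) (τ x0) := by
    rw [hτ0]
    exact contDiffAt_hz (contDiffAt_loc f hf q _
      ((extChartAt (𝓡 n) q).map_source (mem_extChartAt_source q))) z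
  have e1 : hz (loc n f p) z =ᶠ[𝓝 x0] fun x => hz (loc n f q) z (τ x) := by
    filter_upwards [hn] with x hx
    change ⟪z, f ((extChartAt (𝓡 n) p).symm x)⟫_ℝ = ⟪z, f ((extChartAt (𝓡 n) q).symm (τ x))⟫_ℝ
    rw [hx]
  have d1 : fderiv ℝ (hz (loc n f p) z) x0 =
      (fderiv ℝ (hz (loc n f q) z) (τ x0)).comp (T : EE n →L[ℝ] EE n) := by
    rw [e1.fderiv_eq, ← hT]
    exact fderiv_comp x0 (hcq.differentiableAt (by norm_num)) (hτc.differentiableAt (by norm_num))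
  have hcrit : IsCrit n f z q ↔ fderiv ℝ (hz (loc n f q) z) (τ x0) = 0 := by
    rw [hτ0]
    exact Iff.rfl
  refine ⟨?_, ?_⟩
  · rw [hcrit, d1]
    constructor
    · intro h
      rw [h, ContinuousLinearMap.zero_comp]
    · intro h
      ext v
      have h2 := DFunLike.congr_fun h (T.symm v)
      simpa using h2
  · intro hc
    rw [hcrit] at hc
    have hB : ∀ u v, fderiv ℝ (fderiv ℝ (hz (loc n f p) z)) x0 u v =
        Hess n f z q (T u) (T v) := by
      intro u v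
      rw [e1.fderiv.fderiv_eq, second_chain hτc hcq hc u v, hT, hτ0]
      rfl
    exact ⟨(nondeg_congr T hB).symm, fun i => (hasIndex_congr T hB i).symm⟩

end Pool.TI52
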