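import Pool.Agent.LibTI52.TI_C1
import Pool.Agent.LibTI52.TI_B2
import Pool.Agent.LibTI52.TI_B3

/-! TI52, file C2: Morse height functions are dense; nondegenerate critical points persist; maxima. -/

set_option autoImplicit false

open scoped Manifold ContDiff InnerProductSpace Topology

namespace Pool.TI52

variable {n N : ℕ} {M : Type*} [TopologicalSpace M] [ChartedSpace (EE n) M]
  [IsManifold (𝓡 n) ∞ M]

/-- PROOF.  For every `p` the set `O_p` of the `q ∈ (extChartAt p).source` with `extChartAt p q ∈ U` (`U` from `sard_local` for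
`loc n f p`) is a neighbourhood of `p`, and the `z` with a degenerate critical point in `O_p` form a null set (`chart_change`).  Finitely many
`O_p` cover `M` (`CompactSpace.elim_nhds_subcover`), so the `z` which are not Morse form a null set; `MeasureTheory.Measure.dense_of_ae`. -/
theorem morse_dense [CompactSpace M] (f : M → EE N) (hf : ContMDiff (𝓡 n) 𝓘(ℝ, EE N) ∞ f)
    (himm : ∀ p, Function.Injective (mfderiv (𝓡 n) 𝓘(ℝ, EE N) f p)) :
    Dense {z : EE N | IsMorse n f z} := by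
  have hS : ∀ p : M, ∃ U ∈ 𝓝 (extChartAt (𝓡 n) p p), MeasureTheory.volume {z : EE N | ∃ x ∈ U,
      fderiv ℝ (hz (loc n f p) z) x = 0 ∧
      ¬ Nondeg (fderiv ℝ (fderiv ℝ (hz (loc n f p) z)) x)} = 0 := fun p =>
    sard_local (loc n f p) (extChartAt (𝓡 n) p p)
      (contDiffAt_loc f hf p _ (mem_extChartAt_target p)) (loc_injective f hf p (himm p))
  choose U hU hnull using hS
  obtain ⟨t, ht⟩ := CompactSpace.elim_nhds_subcover
    (fun p => (extChartAt (𝓡 n) p).source ∩ (extChartAt (𝓡 n) p) ⁻¹' U p)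
    (fun p => Filter.inter_mem (extChartAt_source_mem_nhds p)
      ((continuousAt_extChartAt p).preimage_mem_nhds (hU p)))
  have hae : ∀ᵐ z ∂(MeasureTheory.volume : MeasureTheory.Measure (EE N)), IsMorse n f z := by
    rw [MeasureTheory.ae_iff]
    have hsub : {z : EE N | ¬ IsMorse n f z} ⊆ ⋃ p ∈ t, {z : EE N | ∃ x ∈ U p,
        fderiv ℝ (hz (loc n f p) z) x = 0 ∧
        ¬ Nondeg (fderiv ℝ (fderiv ℝ (hz (loc n f p) z)) x)} := by
      intro z hzm
      simp only [Set.mem_setOf_eq, IsMorse] at hzm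
      push Not at hzm
      obtain ⟨q, hqc, hqn⟩ := hzm
      have hq : q ∈ ⋃ p ∈ t, (extChartAt (𝓡 n) p).source ∩ (extChartAt (𝓡 n) p) ⁻¹' U p := by
        rw [ht]; exact Set.mem_univ q
      simp only [Set.mem_iUnion] at hq ⊢
      obtain ⟨p, hpt, hqs, hqU⟩ := hq
      obtain ⟨h1, h2⟩ := chart_change f hf p q hqs z
      exact ⟨p, hpt, extChartAt (𝓡 n) p q, hqU, h1.1 hqc, fun h => hqn ((h2 hqc).1.2 h)⟩
    refine MeasureTheory.measure_mono_null hsub ?_
    exact (MeasureTheory.measure_biUnion_null_iff t.countable_toSet).2 fun p _ => hnull p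
  exact MeasureTheory.Measure.dense_of_ae hae

/-- PROOF.  `persist_local` for `loc n f p` at `x1 = extChartAt p p` with `U` = the points `x` of the target of the chart (open) with
`‖f(..) - f(p)‖` small; `q = (extChartAt p).symm x`, `chart_change`. -/
theorem persist (f : M → EE N) (hf : ContMDiff (𝓡 n) 𝓘(ℝ, EE N) ∞ f) (z0 : EE N) (p : M) (i : ℕ)
    (hp : p ∈ critSet n f z0 i) (ε : ℝ) (hε : 0 < ε) :
    ∀ᶠ z in 𝓝 z0, ∃ q ∈ critSet n f z i, |⟪z, f q⟫_ℝ - ⟪z0, f p⟫_ℝ| < ε := by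
  have hg := contDiffAt_loc f hf p _ (mem_extChartAt_target (I := 𝓡 n) p)
  have hval : loc n f p (extChartAt (𝓡 n) p p) = f p := by
    simp only [loc, extChartAt_to_inv]
  have hcont : ContinuousAt (fun y : EE N × EE n => ⟪y.1, loc n f p y.2⟫_ℝ)
      (z0, extChartAt (𝓡 n) p p) := by
    have h2 : ContinuousAt (fun y : EE N × EE n => loc n f p y.2) (z0, extChartAt (𝓡 n) p p) :=
      ContinuousAt.comp (f := fun y : EE N × EE n => y.2) (g := loc n f p)
        hg.continuousAt continuousAt_snd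
    exact ContinuousAt.inner (𝕜 := ℝ) continuousAt_fst h2
  have hev : ∀ᶠ y : EE N × EE n in 𝓝 (z0, extChartAt (𝓡 n) p p),
      |⟪y.1, loc n f p y.2⟫_ℝ - ⟪z0, f p⟫_ℝ| < ε := by
    have h3 := (Metric.continuousAt_iff'.1 hcont) ε hε
    refine h3.mono fun y hy => ?_
    rw [Real.dist_eq] at hy
    simpa only [hval] using hy
  rw [nhds_prod_eq, Filter.eventually_prod_iff] at hev
  obtain ⟨P, hP, Q, hQ, hPQ⟩ := hev
  have hloc := persist_local (loc n f p) (extChartAt (𝓡 n) p p) hg z0 hp.1 i hp.2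
    ({x | Q x} ∩ (extChartAt (𝓡 n) p).target)
    (Filter.inter_mem hQ (extChartAt_target_mem_nhds p))
  filter_upwards [hloc, hP] with z hz1 hPz
  obtain ⟨x, ⟨hxQ, hxt⟩, hxc, hxi⟩ := hz1
  have hqs : (extChartAt (𝓡 n) p).symm x ∈ (extChartAt (𝓡 n) p).source :=
    (extChartAt (𝓡 n) p).map_target hxt
  have hxe : extChartAt (𝓡 n) p ((extChartAt (𝓡 n) p).symm x) = x :=
    (extChartAt (𝓡 n) p).right_inv hxt
  obtain ⟨h1, h2⟩ := chart_change f hf p ((extChartAt (𝓡 n) p).symm x) hqs z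
  rw [hxe] at h1 h2
  have hc := h1.2 hxc
  refine ⟨(extChartAt (𝓡 n) p).symm x, ⟨hc, ((h2 hc).2 i).2 hxi⟩, ?_⟩
  exact hPQ hPz hxQ

/-- PROOF.  `local_max` for `hz (loc n f p) z` (`ht_eq`, continuity of the inverse chart), `fderiv2_symm`, `negDef_of_nondeg`,
`hasIndex_self_iff`. -/
theorem max_mem_critSet (f : M → EE N) (hf : ContMDiff (𝓡 n) 𝓘(ℝ, EE N) ∞ f) (z : EE N)
    (hz : IsMorse n f z) (p : M) (hp : ∀ q, ⟪z, f q⟫_ℝ ≤ ⟪z, f p⟫_ℝ) : p ∈ critSet n f z n := by
  have hg := contDiffAt_loc f hf p _ (mem_extChartAt_target (I := 𝓡 n) p)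
  have hh := contDiffAt_hz hg z
  have hm : IsLocalMax (Pool.TI52.hz (loc n f p) z) (extChartAt (𝓡 n) p p) := by
    refine Filter.Eventually.of_forall fun x => ?_
    have := hp ((extChartAt (𝓡 n) p).symm x)
    simpa only [Pool.TI52.hz, loc, extChartAt_to_inv] using this
  obtain ⟨h1, h2⟩ := local_max hh hm
  have hc : IsCrit n f z p := h1
  exact ⟨hc, (hasIndex_self_iff _).2
    (negDef_of_nondeg (fun u v => fderiv2_symm hh u v) h2 (hz p hc))⟩

end Pool.TI52
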