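import Pool.Agent.LibTI52.TI_C2

/-! TI52, file C3: consequences of the Morse counts. -/

set_option autoImplicit false

open scoped Manifold ContDiff InnerProductSpace Topology

namespace Pool.TI52

variable {n N : ℕ} {M : Type*} [TopologicalSpace M] [ChartedSpace (EE n) M]
  [IsManifold (𝓡 n) ∞ M]

/-- PROOF.  `persist` and `morse_dense` (`Dense.inter_nhds_nonempty`). -/
theorem index_empty [CompactSpace M] (f : M → EE N) (hf : ContMDiff (𝓡 n) 𝓘(ℝ, EE N) ∞ f)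
    (himm : ∀ p, Function.Injective (mfderiv (𝓡 n) 𝓘(ℝ, EE N) f p)) (i : ℕ)
    (h : ∀ z, IsMorse n f z → critSet n f z i = ∅) (z : EE N) : critSet n f z i = ∅ := by
  rw [Set.eq_empty_iff_forall_notMem]
  intro p hp
  have h1 := persist f hf z p i hp 1 one_pos
  obtain ⟨z', hz', q, hq, -⟩ := (morse_dense f hf himm).inter_nhds_nonempty h1
  have h2 := h z' hz'
  rw [h2] at hq
  exact hq

/-- a nondegenerate local maximum is a global maximum.  PROOF.  Suppose `⟪z, f q⟫ > ⟪z, f p⟫ + 2 ε`.  By `persist` (index `n`), continuity and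
`morse_dense` there is a Morse `z'` with `q' ∈ critSet z' n`, `|⟪z', f q'⟫ - ⟪z, f p⟫| < ε` and `|⟪z', f q⟫ - ⟪z, f q⟫| < ε`.  A maximum point `q''` of `⟪z', f ·⟫`
(compactness) is in `critSet z' n` (`max_mem_critSet`), so `q'' = q'`; but `⟪z', f q''⟫ ≥ ⟪z', f q⟫ > ⟪z', f q'⟫`. -/
theorem global_of_local [CompactSpace M] (f : M → EE N)
    (hf : ContMDiff (𝓡 n) 𝓘(ℝ, EE N) ∞ f)
    (himm : ∀ p, Function.Injective (mfderiv (𝓡 n) 𝓘(ℝ, EE N) f p))
    (h : ∀ z, IsMorse n f z → (critSet n f z n).Subsingleton) (z : EE N) (p : M)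
    (hp : p ∈ critSet n f z n) (q : M) : ⟪z, f q⟫_ℝ ≤ ⟪z, f p⟫_ℝ := by
  by_contra hlt
  rw [not_le] at hlt
  have hε : 0 < (⟪z, f q⟫_ℝ - ⟪z, f p⟫_ℝ) / 2 := by linarith
  have h1 := persist f hf z p n hp _ hε
  have hcont : Continuous fun z' : EE N => ⟪z', f q⟫_ℝ := by fun_prop
  have h2 : ∀ᶠ z' in 𝓝 z, ⟪z, f q⟫_ℝ - (⟪z, f q⟫_ℝ - ⟪z, f p⟫_ℝ) / 2 < ⟪z', f q⟫_ℝ := by
    have := hcont.tendsto z
    exact this.eventually (lt_mem_nhds (by linarith))
  obtain ⟨z', hz', ⟨q', hq', hqq⟩, h3⟩ :=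
    (morse_dense f hf himm).inter_nhds_nonempty (h1.and h2)
  have hfc : Continuous fun x : M => ⟪z', f x⟫_ℝ := continuous_const.inner hf.continuous
  obtain ⟨q'', -, hmax⟩ := isCompact_univ.exists_isMaxOn ⟨p, Set.mem_univ p⟩ hfc.continuousOn
  have hq'' : q'' ∈ critSet n f z' n :=
    max_mem_critSet f hf z' hz' q'' fun x => hmax (Set.mem_univ x)
  have heq : q'' = q' := h z' hz' hq'' hq'
  have h4 : ⟪z', f q⟫_ℝ ≤ ⟪z', f q''⟫_ℝ := hmax (Set.mem_univ q)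
  rw [heq] at h4
  have h5 := (abs_lt.1 hqq).2
  linarith

/-- there is a nondegenerate maximum -/
theorem exists_max [CompactSpace M] [Nonempty M] (f : M → EE N)
    (hf : ContMDiff (𝓡 n) 𝓘(ℝ, EE N) ∞ f)
    (himm : ∀ p, Function.Injective (mfderiv (𝓡 n) 𝓘(ℝ, EE N) f p)) :
    ∃ z p, p ∈ critSet n f z n := by
  obtain ⟨z, hz⟩ := (morse_dense f hf himm).nonempty
  have hfc : Continuous fun x : M => ⟪z, f x⟫_ℝ := continuous_const.inner hf.continuous
  obtain ⟨q, -, hmax⟩ := isCompact_univ.exists_isMaxOn Set.univ_nonempty hfc.continuousOn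
  exact ⟨z, q, max_mem_critSet f hf z hz q fun x => hmax (Set.mem_univ x)⟩

end Pool.TI52
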