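import Pool.Agent.LibTI52.TI_C1

/-! TI52, file C4: the normal space and the second fundamental forms at a point. -/

set_option autoImplicit false

open scoped Manifold ContDiff InnerProductSpace Topology

namespace Pool.TI52

variable {n N : ℕ} {M : Type*} [TopologicalSpace M] [ChartedSpace (EE n) M]
  [IsManifold (𝓡 n) ∞ M]

theorem hess_apply (f : M → EE N) (hf : ContMDiff (𝓡 n) 𝓘(ℝ, EE N) ∞ f) (p : M) (z : EE N)
    (u v : EE n) : Hess n f z p u v =
      ⟪z, fderiv ℝ (fderiv ℝ (loc n f p)) (extChartAt (𝓡 n) p p) u v⟫_ℝ := by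
  unfold Hess
  rw [ht_eq]
  exact fderiv2_hz (contDiffAt_loc f hf p _ (mem_extChartAt_target p)) z u v

theorem isCrit_iff (f : M → EE N) (hf : ContMDiff (𝓡 n) 𝓘(ℝ, EE N) ∞ f) (p : M) (z : EE N) :
    IsCrit n f z p ↔
      ∀ v, ⟪z, fderiv ℝ (loc n f p) (extChartAt (𝓡 n) p p) v⟫_ℝ = 0 := by
  have hd : DifferentiableAt ℝ (loc n f p) (extChartAt (𝓡 n) p p) :=
    (contDiffAt_loc f hf p _ (mem_extChartAt_target p)).differentiableAt (by norm_num)
  unfold IsCrit
  rw [ht_eq]
  constructor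
  · intro h v
    rw [← fderiv_hz_apply hd z v, h]
    rfl
  · intro h
    ext v
    rw [fderiv_hz_apply hd z v, h v]
    rfl

/-- the second derivative is linear in `z` (`fderiv2_hz`) -/
noncomputable def hessL (f : M → EE N) (hf : ContMDiff (𝓡 n) 𝓘(ℝ, EE N) ∞ f) (p : M) :
    EE N →ₗ[ℝ] Bil n where
  toFun z := Hess n f z p
  map_add' z z' := by
    ext u v
    rw [add_apply, add_apply, hess_apply f hf,
      hess_apply f hf, hess_apply f hf, inner_add_left]
  map_smul' a z := by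
    ext u v
    rw [RingHom.id_apply, smul_apply, smul_apply,
      hess_apply f hf, hess_apply f hf, real_inner_smul_left, smul_eq_mul]

theorem hess_symm (f : M → EE N) (hf : ContMDiff (𝓡 n) 𝓘(ℝ, EE N) ∞ f) (p : M) (z : EE N)
    (u v : EE n) : Hess n f z p u v = Hess n f z p v u := by
  unfold Hess
  rw [ht_eq]
  exact fderiv2_symm (contDiffAt_hz (contDiffAt_loc f hf p _ (mem_extChartAt_target p)) z) u v

/-- the normal space at `p` (`fderiv_hz`) -/
noncomputable def norS (f : M → EE N) (hf : ContMDiff (𝓡 n) 𝓘(ℝ, EE N) ∞ f) (p : M) :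
    Submodule ℝ (EE N) where
  carrier := {z | IsCrit n f z p}
  zero_mem' := by
    rw [Set.mem_ofPred_eq, isCrit_iff f hf]
    intro v
    rw [inner_zero_left]
  add_mem' := by
    intro a b ha hb
    rw [Set.mem_ofPred_eq, isCrit_iff f hf] at ha hb ⊢
    intro v
    rw [inner_add_left, ha v, hb v, add_zero]
  smul_mem' := by
    intro c a ha
    rw [Set.mem_ofPred_eq, isCrit_iff f hf] at ha ⊢
    intro v
    rw [real_inner_smul_left, ha v, mul_zero]

/-- PROOF.  `z` is in the normal space iff it is orthogonal to the range of `fderiv ℝ (loc n f p) x0`, which has dimension `n`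
(`loc_injective`); `Submodule.finrank_add_finrank_orthogonal`. -/
theorem finrank_norS (f : M → EE N) (hf : ContMDiff (𝓡 n) 𝓘(ℝ, EE N) ∞ f) (p : M)
    (hi : Function.Injective (mfderiv (𝓡 n) 𝓘(ℝ, EE N) f p)) :
    n + Module.finrank ℝ (norS f hf p) = N := by
  have h1 : norS f hf p =
      (LinearMap.range (fderiv ℝ (loc n f p) (extChartAt (𝓡 n) p p) :
        EE n →ₗ[ℝ] EE N))ᗮ := by
    ext z
    show IsCrit n f z p ↔ _
    rw [isCrit_iff f hf, Submodule.mem_orthogonal]
    constructor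
    · rintro h _ ⟨v, rfl⟩
      rw [real_inner_comm]
      exact h v
    · intro h v
      rw [real_inner_comm]
      exact h _ ⟨v, rfl⟩
  have h2 : Module.finrank ℝ (LinearMap.range (fderiv ℝ (loc n f p) (extChartAt (𝓡 n) p p) :
      EE n →ₗ[ℝ] EE N)) = n := by
    rw [LinearMap.finrank_range_of_inj (loc_injective f hf p hi), finrank_euclideanSpace_fin]
  have h3 := Submodule.finrank_add_finrank_orthogonal
    (LinearMap.range (fderiv ℝ (loc n f p) (extChartAt (𝓡 n) p p) : EE n →ₗ[ℝ] EE N))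
  rw [h2, ← h1, finrank_euclideanSpace_fin] at h3
  exact h3

/-- PROOF.  If `Hess w p = 0` for a normal `w ≠ 0` then `z1 + t w` (`t` real) is normal with the same second derivative, so `p` is a nondegenerate local maximum of
`⟪z1 + t w, f ·⟫`, hence a global one (`hglob`): `⟪z1 + t w, f q - f p⟫ ≤ 0` for all real `t`, so `⟪w, f q⟫ = ⟪w, f p⟫` for all `q`, against `hsub`. -/
theorem hess_inj (f : M → EE N) (hf : ContMDiff (𝓡 n) 𝓘(ℝ, EE N) ∞ f)
    (hsub : ¬ ∃ (z : EE N) (a : ℝ), z ≠ 0 ∧ ∀ p, ⟪z, f p⟫_ℝ = a)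
    (hglob : ∀ (z : EE N) (p : M), p ∈ critSet n f z n → ∀ q, ⟪z, f q⟫_ℝ ≤ ⟪z, f p⟫_ℝ)
    (p : M) (z1 : EE N) (h1 : p ∈ critSet n f z1 n) (w : EE N) (hw : w ∈ norS f hf p)
    (h0 : Hess n f w p = 0) : w = 0 := by
  by_contra hne
  apply hsub
  refine ⟨w, ⟪w, f p⟫_ℝ, hne, fun q => ?_⟩
  have key : ∀ t : ℝ, ⟪z1 + t • w, f q⟫_ℝ ≤ ⟪z1 + t • w, f p⟫_ℝ := by
    intro t
    apply hglob
    refine ⟨(norS f hf p).add_mem h1.1 ((norS f hf p).smul_mem t hw), ?_⟩
    have h2 : Hess n f (z1 + t • w) p = Hess n f z1 p := by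
      ext u v
      have h3 : Hess n f w p u v = 0 := by
        rw [h0]
        rfl
      rw [hess_apply f hf] at h3
      rw [hess_apply f hf, hess_apply f hf, inner_add_left, real_inner_smul_left, h3, mul_zero,
        add_zero]
    rw [h2]
    exact h1.2
  simp only [inner_add_left, real_inner_smul_left] at key
  set A := ⟪z1, f q⟫_ℝ - ⟪z1, f p⟫_ℝ with hA
  set D := ⟪w, f q⟫_ℝ - ⟪w, f p⟫_ℝ with hD
  have key2 : ∀ t : ℝ, A + t * D ≤ 0 := by
    intro t
    have := key t
    rw [hA, hD]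
    linarith
  have hD0 : D = 0 := by
    by_contra hD0
    have h5 := key2 ((1 - A) / D)
    rw [div_mul_cancel₀ _ hD0] at h5
    linarith
  linarith

end Pool.TI52
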