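import Mathlib

/-! TI52: tight immersions of connected sums of handles. Definitions. -/

set_option autoImplicit false

open scoped Manifold ContDiff InnerProductSpace Topology

namespace Pool.TI52

/-- Euclidean space -/
abbrev EE (n : ℕ) : Type := EuclideanSpace ℝ (Fin n)

/-- bilinear forms on `EE n` -/
abbrev Bil (n : ℕ) : Type := EE n →L[ℝ] EE n →L[ℝ] ℝ

/-- the bilinear form `B` has index `i`: it is negative definite on a subspace of dimension `i`
and positive definite on a subspace of dimension `n - i` -/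
def HasIndex {n : ℕ} (B : Bil n) (i : ℕ) : Prop :=
  i ≤ n ∧ ∃ W W' : Submodule ℝ (EE n), Module.finrank ℝ W = i ∧ Module.finrank ℝ W' = n - i ∧
    (∀ v ∈ W, v ≠ 0 → B v v < 0) ∧ ∀ v ∈ W', v ≠ 0 → 0 < B v v

/-- nondegenerate bilinear forms -/
def Nondeg {n : ℕ} (B : Bil n) : Prop := ∀ v, (∀ w, B v w = 0) → v = 0

/-- the function `x ↦ ⟪z, g x⟫` -/
noncomputable def hz {n N : ℕ} (g : EE n → EE N) (z : EE N) : EE n → ℝ := fun x => ⟪z, g x⟫_ℝ

/-- the inner product as a bilinear form -/
noncomputable def ip (n : ℕ) : Bil n := (innerSL ℝ : EE n →L[ℝ] EE n →L[ℝ] ℝ)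

theorem ip_apply {n : ℕ} (u v : EE n) : ip n u v = ⟪u, v⟫_ℝ := rfl

section manifold

variable (n : ℕ) {N : ℕ} {M : Type*} [TopologicalSpace M] [ChartedSpace (EE n) M]

/-- the map `f` in the chart at `p` -/
noncomputable def loc (f : M → EE N) (p : M) : EE n → EE N :=
  fun x => f ((extChartAt (𝓡 n) p).symm x)

/-- the height function `q ↦ ⟪z, f q⟫` written in the chart at `p` -/
noncomputable def ht (f : M → EE N) (z : EE N) (p : M) : EE n → ℝ :=
  fun x => ⟪z, f ((extChartAt (𝓡 n) p).symm x)⟫_ℝ

/-- `p` is a critical point of the height function of `z` -/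
def IsCrit (f : M → EE N) (z : EE N) (p : M) : Prop :=
  fderiv ℝ (ht n f z p) (extChartAt (𝓡 n) p p) = 0

/-- the second derivative at `p` of the height function of `z` in the chart at `p` -/
noncomputable def Hess (f : M → EE N) (z : EE N) (p : M) : Bil n :=
  fderiv ℝ (fderiv ℝ (ht n f z p)) (extChartAt (𝓡 n) p p)

/-- the height function of `z` is a Morse function -/
def IsMorse (f : M → EE N) (z : EE N) : Prop := ∀ p, IsCrit n f z p → Nondeg (Hess n f z p)

/-- the critical points of index `i` of the height function of `z` -/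
def critSet (f : M → EE N) (z : EE N) (i : ℕ) : Set M :=
  {p | IsCrit n f z p ∧ HasIndex (Hess n f z p) i}

end manifold

/-- the Betti numbers `1, g, 0, …, 0, g, 1` of the connected sum of `g` copies of
`S^(n-1) × S^1` (`n ≥ 3`) -/
def bet (n g i : ℕ) : ℕ := if i = 0 ∨ i = n then 1 else if i = 1 ∨ i + 1 = n then g else 0

/-- the reverse Cauchy-Schwarz inequality: `q` is not definite on any plane -/
def RCS {n : ℕ} (q : Bil n) : Prop := ∀ u v, q u u * q v v ≤ q u v ^ 2

end Pool.TI52
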