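import Pool.Agent.LibTI52.TI_A1

/-! TI52, file L1: reduction to the standard negative definite form. -/

set_option autoImplicit false

open scoped InnerProductSpace

namespace Pool.TI52

/-- PROOF.  `- Q0 (u, v) = ⟪A u, v⟫` with `A` symmetric and positive definite; eigenvector basis `b i`, eigenvalues `λ i > 0`; `T` maps the standard
basis vector `e i` to `(λ i)^(-1/2) b i`.  (Or: Gram-Schmidt for `- Q0`; or: induction.) -/
theorem exists_normal_form {n : ℕ} (Q0 : Bil n) (hs : ∀ u v, Q0 u v = Q0 v u)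
    (hneg : ∀ v, v ≠ 0 → Q0 v v < 0) :
    ∃ T : EE n ≃L[ℝ] EE n, ∀ u v, Q0 (T u) (T v) = -⟪u, v⟫_ℝ := by
  let B : LinearMap.BilinForm ℝ (EE n) := LinearMap.mk₂ ℝ (fun u v => Q0 u v)
    (fun u u' v => by rw [map_add]; rfl)
    (fun a u v => by rw [map_smul]; rfl)
    (fun u v v' => by rw [map_add]) (fun a u v => by rw [map_smul])
  have hBa : ∀ u v, B u v = Q0 u v := fun u v => rfl
  have hB : LinearMap.IsSymm B := ⟨fun u v => hs u v⟩
  obtain ⟨v, hv⟩ := LinearMap.BilinForm.exists_orthogonal_basis hB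
  have hn : Module.finrank ℝ (EE n) = n := finrank_euclideanSpace_fin
  let v' : Module.Basis (Fin n) ℝ (EE n) := v.reindex (finCongr hn)
  have hv' : ∀ i j, i ≠ j → Q0 (v' i) (v' j) = 0 := by
    intro i j hij
    have e : ∀ i, v' i = v ((finCongr hn).symm i) := fun i => v.reindex_apply _ i
    rw [e i, e j]
    exact (LinearMap.isOrthoᵢ_def.1 hv) _ _ (fun h => hij ((finCongr hn).symm.injective h))
  have hpos : ∀ i, 0 < -Q0 (v' i) (v' i) := fun i => by
    have := hneg _ (v'.ne_zero i)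
    linarith
  have hsq : ∀ i, 0 < Real.sqrt (-Q0 (v' i) (v' i)) := fun i => Real.sqrt_pos.2 (hpos i)
  have hw : ∀ i, IsUnit (Real.sqrt (-Q0 (v' i) (v' i)))⁻¹ := fun i =>
    isUnit_iff_ne_zero.2 (inv_ne_zero (hsq i).ne')
  let b' : Module.Basis (Fin n) ℝ (EE n) := v'.isUnitSMul hw
  have hb' : ∀ i, b' i = (Real.sqrt (-Q0 (v' i) (v' i)))⁻¹ • v' i := fun i =>
    v'.isUnitSMul_apply hw i
  have hbb : ∀ i j, Q0 (b' i) (b' j) = -(if i = j then 1 else 0) := by
    intro i j
    have hsm : ∀ (a b : ℝ) (x y : EE n), Q0 (a • x) (b • y) = a * (b * Q0 x y) := by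
      intro a b x y
      rw [map_smul, map_smul]
      change b * (a * Q0 x y) = _
      ring
    rw [hb' i, hb' j, hsm]
    by_cases hij : i = j
    · subst hij
      rw [if_pos rfl]
      have h1 : Real.sqrt (-Q0 (v' i) (v' i)) * Real.sqrt (-Q0 (v' i) (v' i)) =
        -Q0 (v' i) (v' i) := Real.mul_self_sqrt (hpos i).le
      have h2 := (hsq i).ne'
      have h3 : Q0 (v' i) (v' i) = -(Real.sqrt (-Q0 (v' i) (v' i)) *
        Real.sqrt (-Q0 (v' i) (v' i))) := by rw [h1, neg_neg]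
      generalize Real.sqrt (-Q0 (v' i) (v' i)) = s at h2 h3 ⊢
      rw [h3]
      field_simp
    · rw [if_neg hij, hv' i j hij, mul_zero, mul_zero, neg_zero]
  let e := (EuclideanSpace.basisFun (Fin n) ℝ).toBasis
  have he : ∀ i j, ⟪e i, e j⟫_ℝ = if i = j then 1 else 0 := by
    intro i j
    have := (orthonormal_iff_ite.1 (EuclideanSpace.basisFun (Fin n) ℝ).orthonormal) i j
    simpa [e] using this
  let L : EE n ≃ₗ[ℝ] EE n := e.equiv b' (Equiv.refl _)
  have hL : ∀ i, L (e i) = b' i := fun i => e.equiv_apply i b' (Equiv.refl _)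
  refine ⟨L.toContinuousLinearEquiv, fun u v => ?_⟩
  have key : B.compl₁₂ (L : EE n →ₗ[ℝ] EE n) (L : EE n →ₗ[ℝ] EE n) = -innerₗ (EE n) := by
    refine LinearMap.ext_basis e e fun i j => ?_
    rw [LinearMap.compl₁₂_apply, LinearMap.neg_apply, LinearMap.neg_apply]
    change Q0 (L (e i)) (L (e j)) = -⟪e i, e j⟫_ℝ
    rw [hL, hL, hbb, he]
  have := LinearMap.congr_fun (LinearMap.congr_fun key u) v
  rw [LinearMap.compl₁₂_apply, LinearMap.neg_apply, LinearMap.neg_apply] at this
  exact this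

/-- the pull back of forms by `T` is a linear equivalence -/
noncomputable def pull {n : ℕ} (T : EE n ≃L[ℝ] EE n) : Bil n ≃ₗ[ℝ] Bil n where
  toFun B := ((ContinuousLinearMap.compL ℝ (EE n) (EE n) ℝ).flip
    (T : EE n →L[ℝ] EE n)).comp (B.comp (T : EE n →L[ℝ] EE n))
  invFun B := ((ContinuousLinearMap.compL ℝ (EE n) (EE n) ℝ).flip
    (T.symm : EE n →L[ℝ] EE n)).comp (B.comp (T.symm : EE n →L[ℝ] EE n))
  map_add' B B' := by
    ext u v
    simp
  map_smul' a B := by
    ext u v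
    simp
  left_inv B := by
    ext u v
    simp
  right_inv B := by
    ext u v
    simp

theorem pull_apply {n : ℕ} (T : EE n ≃L[ℝ] EE n) (B : Bil n) (u v : EE n) :
    pull T B u v = B (T u) (T v) := by
  simp [pull]

end Pool.TI52
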