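import Pool.Agent.LibTI52.TI_A1

/-! TI52, file L2: pencils `B - t ⟪,⟫`. -/

set_option autoImplicit false

open scoped InnerProductSpace

namespace Pool.TI52

/-- diagonalisation of a symmetric bilinear form on Euclidean space -/
theorem exists_diag {n : ℕ} (B : Bil n) (hs : ∀ u v, B u v = B v u) :
    ∃ (b : OrthonormalBasis (Fin n) ℝ (EE n)) (l : Fin n → ℝ), Antitone l ∧
      ∀ u v, B u v = ∑ i, l i * (⟪b i, u⟫_ℝ * ⟪b i, v⟫_ℝ) := by
  set A : EE n →ₗ[ℝ] EE n :=
    { toFun := fun u => (InnerProductSpace.toDual ℝ (EE n)).symm (B u)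
      map_add' := fun u v => by simp
      map_smul' := fun a u => by simp } with hA
  have hAB : ∀ u v, ⟪A u, v⟫_ℝ = B u v := by
    intro u v
    simp only [hA, LinearMap.coe_mk, AddHom.coe_mk]
    rw [InnerProductSpace.toDual_symm_apply]
  have hsym : A.IsSymmetric := by
    intro u v
    rw [hAB, real_inner_comm, hAB, hs]
  have hn : Module.finrank ℝ (EE n) = n := by simp
  refine ⟨hsym.eigenvectorBasis hn, hsym.eigenvalues hn, hsym.eigenvalues_antitone hn, ?_⟩
  intro u v
  have hb := hsym.apply_eigenvectorBasis hn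
  set b := hsym.eigenvectorBasis hn with hbdef
  have h1 : B u v = ⟪u, A v⟫_ℝ := by rw [real_inner_comm, hAB, hs]
  rw [h1, ← b.sum_inner_mul_inner u (A v)]
  refine Finset.sum_congr rfl fun i _ => ?_
  have h2 : ⟪b i, A v⟫_ℝ = hsym.eigenvalues hn i * ⟪b i, v⟫_ℝ := by
    rw [← hsym (b i) v, hb i, real_inner_smul_left]
    rfl
  rw [h2, real_inner_comm (b i) u]
  ring

theorem span_orth {n : ℕ} (b : OrthonormalBasis (Fin n) ℝ (EE n)) (P : Fin n → Prop)
    [DecidablePred P] {v : EE n}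
    (hv : v ∈ Submodule.span ℝ (Set.range fun i : {i : Fin n // P i} => b i)) {k : Fin n}
    (hk : ¬ P k) : ⟪b k, v⟫_ℝ = 0 := by
  induction hv using Submodule.span_induction with
  | mem x hx =>
    obtain ⟨i, rfl⟩ := hx
    have hne : k ≠ i.1 := fun h => hk (h ▸ i.2)
    exact b.orthonormal.2 hne
  | zero => simp
  | add x y _ _ hx hy => rw [inner_add_right, hx, hy, add_zero]
  | smul a x _ hx => rw [real_inner_smul_right, hx, mul_zero]

theorem finrank_span_sub {n : ℕ} (b : OrthonormalBasis (Fin n) ℝ (EE n)) (P : Fin n → Prop)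
    [DecidablePred P] :
    Module.finrank ℝ (Submodule.span ℝ (Set.range fun i : {i : Fin n // P i} => b i)) =
      Fintype.card {i : Fin n // P i} := by
  have h : LinearIndependent ℝ (fun i : {i : Fin n // P i} => b i) :=
    b.orthonormal.linearIndependent.comp _ Subtype.val_injective
  exact finrank_span_eq_card h

theorem sum_neg_of {n : ℕ} (b : OrthonormalBasis (Fin n) ℝ (EE n)) (P : Fin n → Prop)
    [DecidablePred P] (c : Fin n → ℝ) (hc : ∀ i, P i → 0 < c i) {v : EE n}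
    (hv : v ∈ Submodule.span ℝ (Set.range fun i : {i : Fin n // P i} => b i)) (h0 : v ≠ 0) :
    0 < ∑ i, c i * (⟪b i, v⟫_ℝ * ⟪b i, v⟫_ℝ) := by
  have hnn : ∀ i ∈ Finset.univ, 0 ≤ c i * (⟪b i, v⟫_ℝ * ⟪b i, v⟫_ℝ) := by
    intro i _
    by_cases hi : P i
    · exact mul_nonneg (hc i hi).le (mul_self_nonneg _)
    · rw [span_orth b P hv hi]; simp
  refine lt_of_le_of_ne (Finset.sum_nonneg hnn) ?_
  intro h
  have hz := (Finset.sum_eq_zero_iff_of_nonneg hnn).1 h.symm
  apply h0
  have hall : ∀ i, ⟪b i, v⟫_ℝ = 0 := by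
    intro i
    by_cases hi : P i
    · have := hz i (Finset.mem_univ i)
      rcases mul_eq_zero.1 this with h1 | h1
      · exact absurd h1 (hc i hi).ne'
      · exact mul_self_eq_zero.1 h1
    · exact span_orth b P hv hi
  have := b.sum_repr' v
  rw [← this]
  refine Finset.sum_eq_zero fun i _ => ?_
  rw [hall i, zero_smul]

theorem card_gt {n : ℕ} (j : Fin n) : Fintype.card {i : Fin n // j < i} = n - 1 - j := by
  rw [Fintype.card_subtype]
  have : (Finset.univ.filter fun i : Fin n => j < i) = Finset.Ioi j := by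
    ext i; simp
  rw [this, Fin.card_Ioi]

theorem card_le {n : ℕ} (j : Fin n) : Fintype.card {i : Fin n // i ≤ j} = j + 1 := by
  rw [Fintype.card_subtype]
  have : (Finset.univ.filter fun i : Fin n => i ≤ j) = Finset.Iic j := by
    ext i; simp
  rw [this, Fin.card_Iic]

/-- PROOF.  `B (u, v) = ⟪A u, v⟫` with `A` symmetric (`hs`); orthonormal basis of eigenvectors `b j` with eigenvalues `λ_0 ≥ λ_1 ≥ … ≥ λ_(n-1)`
(`LinearMap.IsSymmetric.eigenvectorBasis`, `eigenvalues` is antitone).  CLAIM `λ_1 = λ_(n-2)`.  Otherwise `λ_j > λ_(j+1)` for some `1 ≤ j ≤ n - 3`; with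
`t` strictly between them `B - t ip` is positive definite on the span of `b_0 … b_j` and negative definite on the span of the others, so it has index
`n - 1 - j ∈ [2, n - 2]`, against `h`.  Put `m = λ_1`.  Then `(B - m ip) (v, v) = α X(v)² - β Y(v)²` with `α = λ_0 - m ≥ 0`, `β = m - λ_(n-1) ≥ 0`,
`X = ⟪b_0, ·⟫`, `Y = ⟪b_(n-1), ·⟫`, and `q(u, v)² - q(u, u) q(v, v) = α β (X(u) Y(v) - Y(u) X(v))² ≥ 0`. -/
theorem exists_shift {n : ℕ} (hn : 4 ≤ n) (B : Bil n) (hs : ∀ u v, B u v = B v u)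
    (h : ∀ (t : ℝ) (i : ℕ), 2 ≤ i → i + 2 ≤ n → ¬ HasIndex (B - t • ip n) i) :
    ∃ m : ℝ, RCS (B - m • ip n) := by
  obtain ⟨b, l, hl, hB⟩ := exists_diag B hs
  have hip : ∀ u v, ip n u v = ∑ i, (⟪b i, u⟫_ℝ * ⟪b i, v⟫_ℝ) := by
    intro u v
    rw [ip_apply, ← b.sum_inner_mul_inner u v]
    refine Finset.sum_congr rfl fun i _ => ?_
    rw [real_inner_comm (b i) u]
  have hq : ∀ (t : ℝ) (u v : EE n), (B - t • ip n) u v =
      ∑ i, (l i - t) * (⟪b i, u⟫_ℝ * ⟪b i, v⟫_ℝ) := by
    intro t u v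
    have : (B - t • ip n) u v = B u v - t * ip n u v := by simp
    rw [this, hB, hip, Finset.mul_sum, ← Finset.sum_sub_distrib]
    refine Finset.sum_congr rfl fun i _ => ?_
    ring
  -- no strict drop
  have hdrop : ∀ (j : ℕ) (h1 : 1 ≤ j) (h2 : j + 3 ≤ n),
      l ⟨j, by omega⟩ = l ⟨j + 1, by omega⟩ := by
    intro j h1 h2
    by_contra hne
    have hle : l ⟨j + 1, by omega⟩ ≤ l ⟨j, by omega⟩ := hl (by simp)
    have hlt : l ⟨j + 1, by omega⟩ < l ⟨j, by omega⟩ := lt_of_le_of_ne hle (Ne.symm hne)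
    obtain ⟨t, ht1, ht2⟩ := exists_between hlt
    refine h t (n - 1 - j) (by omega) (by omega) ⟨by omega, ?_⟩
    set J : Fin n := ⟨j, by omega⟩ with hJ
    refine ⟨Submodule.span ℝ (Set.range fun i : {i : Fin n // J < i} => b i),
      Submodule.span ℝ (Set.range fun i : {i : Fin n // i ≤ J} => b i), ?_, ?_, ?_, ?_⟩
    · rw [finrank_span_sub b (fun i => J < i), card_gt]
    · rw [finrank_span_sub b (fun i => i ≤ J), card_le]
      simp only [hJ]
      omega
    · intro v hv h0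
      have := sum_neg_of b (fun i => J < i) (fun i => t - l i) (fun i hi => by
        have hi' : (⟨j + 1, by omega⟩ : Fin n) ≤ i := by
          rw [Fin.le_def]; rw [Fin.lt_def] at hi; simpa [hJ] using hi
        have := hl hi'
        show 0 < t - l i
        linarith) hv h0
      rw [hq]
      have h3 : ∑ i, (l i - t) * (⟪b i, v⟫_ℝ * ⟪b i, v⟫_ℝ) =
          -∑ i, (t - l i) * (⟪b i, v⟫_ℝ * ⟪b i, v⟫_ℝ) := by
        rw [← Finset.sum_neg_distrib]
        refine Finset.sum_congr rfl fun i _ => ?_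
        ring
      rw [h3]
      linarith
    · intro v hv h0
      have := sum_neg_of b (fun i => i ≤ J) (fun i => l i - t) (fun i hi => by
        have := hl hi
        show 0 < l i - t
        linarith) hv h0
      rw [hq]
      exact this
  have hconst : ∀ (j : ℕ) (h1 : 1 ≤ j) (h2 : j + 2 ≤ n),
      l ⟨j, by omega⟩ = l ⟨1, by omega⟩ := by
    intro j h1
    induction j, h1 using Nat.le_induction with
    | base => intro _; rfl
    | succ j hj ih =>
      intro h2
      rw [← hdrop j hj (by omega)]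
      exact ih (by omega)
  refine ⟨l ⟨1, by omega⟩, ?_⟩
  set m := l ⟨1, by omega⟩ with hm
  set a : Fin n := ⟨0, by omega⟩ with ha
  set z : Fin n := ⟨n - 1, by omega⟩ with hz
  have haz : a ≠ z := by
    intro h
    have := congrArg Fin.val h
    simp [ha, hz] at this
    omega
  have hform : ∀ u v, (B - m • ip n) u v =
      (l a - m) * (⟪b a, u⟫_ℝ * ⟪b a, v⟫_ℝ) + (l z - m) * (⟪b z, u⟫_ℝ * ⟪b z, v⟫_ℝ) := by
    intro u v
    rw [hq, ← Finset.sum_pair haz
      (f := fun i => (l i - m) * (⟪b i, u⟫_ℝ * ⟪b i, v⟫_ℝ))]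
    symm
    refine Finset.sum_subset (Finset.subset_univ _) ?_
    intro i _ hi
    have hi1 : i ≠ a := fun h => hi (by simp [h])
    have hi2 : i ≠ z := fun h => hi (by simp [h])
    have h1 : 1 ≤ (i : ℕ) := by
      rcases Nat.eq_zero_or_pos (i : ℕ) with h | h
      · exact absurd (Fin.ext (by simp [ha, h])) hi1
      · exact h
    have h2 : (i : ℕ) + 2 ≤ n := by
      have h3 : (i : ℕ) ≠ n - 1 := fun h => hi2 (Fin.ext (by simp [hz, h]))
      have := i.2
      omega
    have h3 : l i = m := hconst i h1 h2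
    simp only [h3, sub_self, zero_mul]
  have hA : 0 ≤ l a - m := by
    have : m ≤ l a := hl (by rw [Fin.le_def]; simp [ha])
    linarith
  have hZ : 0 ≤ m - l z := by
    have : l z ≤ m := hl (by rw [Fin.le_def]; simp [hz]; omega)
    linarith
  intro u v
  rw [hform, hform, hform]
  set X := ⟪b a, u⟫_ℝ
  set X' := ⟪b a, v⟫_ℝ
  set Y := ⟪b z, u⟫_ℝ
  set Y' := ⟪b z, v⟫_ℝ
  have := mul_nonneg (mul_nonneg hA hZ) (sq_nonneg (X * Y' - X' * Y))
  nlinarith [this]

end Pool.TI52
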