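import Pool.Agent.LibTI52.TI_Defs

/-! TI52, file L3: forms with the reverse Cauchy-Schwarz inequality. -/

set_option autoImplicit false

open scoped InnerProductSpace

namespace Pool.TI52

/-- PROOF.  If `q u u > 0` for some `u` take `ℓ = q u`: `ℓ v = 0` gives `q u u * q v v ≤ 0`.  Otherwise `ℓ = 0`. -/
theorem RCS.exists_nonpos {n : ℕ} {q : Bil n} (h : RCS q) :
    ∃ l : EE n →ₗ[ℝ] ℝ, ∀ v, l v = 0 → q v v ≤ 0 := by
  by_cases hu : ∃ u, 0 < q u u
  · obtain ⟨u, hu⟩ := hu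
    refine ⟨(q u : EE n →ₗ[ℝ] ℝ), fun v hv => ?_⟩
    have hv' : q u v = 0 := hv
    have h1 := h u v
    rw [hv'] at h1
    by_contra hc
    push Not at hc
    have := mul_pos hu hc
    nlinarith
  · push Not at hu
    exact ⟨0, fun v _ => hu v⟩

theorem RCS.exists_nonneg {n : ℕ} {q : Bil n} (h : RCS q) :
    ∃ l : EE n →ₗ[ℝ] ℝ, ∀ v, l v = 0 → 0 ≤ q v v := by
  by_cases hu : ∃ u, q u u < 0
  · obtain ⟨u, hu⟩ := hu
    refine ⟨(q u : EE n →ₗ[ℝ] ℝ), fun v hv => ?_⟩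
    have hv' : q u v = 0 := hv
    have h1 := h u v
    rw [hv'] at h1
    by_contra hc
    push Not at hc
    have := mul_pos_of_neg_of_neg hu hc
    nlinarith
  · push Not at hu
    exact ⟨0, fun v _ => hu v⟩

/-- three linear functionals on a space of dimension at least `4` have a common zero `v ≠ 0` -/
theorem exists_common_zero {n : ℕ} (hn : 4 ≤ n) (l1 l2 l3 : EE n →ₗ[ℝ] ℝ) :
    ∃ v : EE n, v ≠ 0 ∧ l1 v = 0 ∧ l2 v = 0 ∧ l3 v = 0 := by
  let L : EE n →ₗ[ℝ] (Fin 3 → ℝ) := LinearMap.pi ![l1, l2, l3]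
  have hlt : Module.finrank ℝ (Fin 3 → ℝ) < Module.finrank ℝ (EE n) := by
    have h1 : Module.finrank ℝ (EE n) = n := by
      simp [EE]
    rw [h1, Module.finrank_fin_fun]
    omega
  have hker : LinearMap.ker L ≠ ⊥ := LinearMap.ker_ne_bot_of_finrank_lt hlt
  obtain ⟨v, hv, hv0⟩ := (Submodule.ne_bot_iff _).1 hker
  refine ⟨v, hv0, ?_, ?_, ?_⟩
  · have := congrFun (LinearMap.mem_ker.1 hv) 0
    simpa [L] using this
  · have := congrFun (LinearMap.mem_ker.1 hv) 1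
    simpa [L] using this
  · have := congrFun (LinearMap.mem_ker.1 hv) 2
    simpa [L] using this

/-- PROOF.  `q3 = q1 + q2 - m ip`.  Choose `v ≠ 0` with `q1 v v ≤ 0`, `q2 v v ≤ 0`, `q3 v v ≥ 0`: then `m ‖v‖² ≤ 0`.  Similarly `m ≥ 0`. -/
theorem shift_eq_zero {n : ℕ} (hn : 4 ≤ n) {q1 q2 : Bil n} (h1 : RCS q1) (h2 : RCS q2) (m : ℝ)
    (h3 : RCS (q1 + q2 - m • ip n)) : m = 0 := by
  have key : ∀ v : EE n, (q1 + q2 - m • ip n) v v = q1 v v + q2 v v - m * ‖v‖ ^ 2 := by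
    intro v
    have : (ip n) v v = ‖v‖ ^ 2 := by
      rw [ip_apply]
      exact real_inner_self_eq_norm_sq v
    simp only [ContinuousLinearMap.sub_apply, ContinuousLinearMap.add_apply,
      ContinuousLinearMap.smul_apply, smul_eq_mul, this]
  apply le_antisymm
  · obtain ⟨l1, hl1⟩ := h1.exists_nonpos
    obtain ⟨l2, hl2⟩ := h2.exists_nonpos
    obtain ⟨l3, hl3⟩ := h3.exists_nonneg
    obtain ⟨v, hv0, e1, e2, e3⟩ := exists_common_zero hn l1 l2 l3
    have a1 := hl1 v e1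
    have a2 := hl2 v e2
    have a3 := hl3 v e3
    rw [key] at a3
    have hpos : 0 < ‖v‖ ^ 2 := by positivity
    by_contra hc
    push Not at hc
    have := mul_pos hc hpos
    linarith
  · obtain ⟨l1, hl1⟩ := h1.exists_nonneg
    obtain ⟨l2, hl2⟩ := h2.exists_nonneg
    obtain ⟨l3, hl3⟩ := h3.exists_nonpos
    obtain ⟨v, hv0, e1, e2, e3⟩ := exists_common_zero hn l1 l2 l3
    have a1 := hl1 v e1
    have a2 := hl2 v e2
    have a3 := hl3 v e3
    rw [key] at a3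
    have hpos : 0 < ‖v‖ ^ 2 := by positivity
    by_contra hc
    push Not at hc
    have := mul_neg_of_neg_of_pos hc hpos
    linarith

theorem RCS.smul {n : ℕ} {q : Bil n} (h : RCS q) (a : ℝ) : RCS (a • q) := by
  intro u v
  have h1 := h u v
  simp only [ContinuousLinearMap.smul_apply, smul_eq_mul]
  have h2 := mul_le_mul_of_nonneg_left h1 (sq_nonneg a)
  calc a * q u u * (a * q v v) = a ^ 2 * (q u u * q v v) := by ring
    _ ≤ a ^ 2 * (q u v) ^ 2 := h2
    _ = (a * q u v) ^ 2 := by ring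

theorem RCS.zero {n : ℕ} : RCS (0 : Bil n) := by
  intro u v
  simp

end Pool.TI52
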