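import Pool.Agent.LibTI52.TI_Defs

/-! TI52, file L4: lemmas on forms with the reverse Cauchy-Schwarz inequality. -/

set_option autoImplicit false

open scoped InnerProductSpace

namespace Pool.TI52

/-- a hyperbolic pair.  PROOF.  `q0 u u > 0 > q0 v v`; `s ↦ q0 (u + s v) (u + s v)` has two distinct roots `s1, s2`; `e1 = u + s1 v`,
`e2` = a multiple of `u + s2 v`. -/
theorem exists_hyperbolic {n : ℕ} (q0 : Bil n) (hs : ∀ u v, q0 u v = q0 v u) (u v : EE n)
    (hu : 0 < q0 u u) (hv : q0 v v < 0) :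
    ∃ e1 e2 : EE n, q0 e1 e1 = 0 ∧ q0 e2 e2 = 0 ∧ q0 e1 e2 = 1 := by
  set a := q0 v v with ha
  set b := q0 u v with hb
  set c := q0 u u with hc
  have hvu : q0 v u = b := by rw [hs v u]
  have hD : 0 < b ^ 2 - a * c := by nlinarith [sq_nonneg b, mul_pos (neg_pos.2 hv) hu]
  obtain ⟨d, hd, hd2⟩ : ∃ d : ℝ, 0 < d ∧ d ^ 2 = b ^ 2 - a * c :=
    ⟨Real.sqrt (b ^ 2 - a * c), Real.sqrt_pos.2 hD, Real.sq_sqrt hD.le⟩
  have ha0 : a ≠ 0 := ne_of_lt hv
  have gen : ∀ s t : ℝ, q0 (u + s • v) (u + t • v) = c + (s + t) * b + s * t * a := by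
    intro s t
    simp only [map_add, map_smul, ContinuousLinearMap.add_apply, ContinuousLinearMap.smul_apply,
      smul_eq_mul, hvu, ← ha, ← hb, ← hc]
    ring
  set s1 := (-b + d) / a with hs1
  set s2 := (-b - d) / a with hs2
  have h12 : q0 (u + s1 • v) (u + s2 • v) = -2 * d ^ 2 / a := by
    rw [gen, hs1, hs2]
    field_simp
    nlinarith [hd2]
  have hne : -2 * d ^ 2 / a ≠ 0 := by
    apply div_ne_zero _ ha0
    have : 0 < d ^ 2 := by positivity
    linarith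
  refine ⟨u + s1 • v, (-2 * d ^ 2 / a)⁻¹ • (u + s2 • v), ?_, ?_, ?_⟩
  · rw [gen, hs1]
    field_simp
    nlinarith [hd2]
  · have h0 : q0 (u + s2 • v) (u + s2 • v) = 0 := by
      rw [gen, hs2]
      field_simp
      nlinarith [hd2]
    have e : ∀ r : ℝ, q0 (r • (u + s2 • v)) (r • (u + s2 • v)) = r * (r * q0 (u + s2 • v) (u + s2 • v)) := by
      intro r
      rw [map_smul, map_smul q0]
      simp only [ContinuousLinearMap.smul_apply, smul_eq_mul]
    rw [e, h0]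
    simp
  · rw [map_smul, h12, smul_eq_mul]
    exact inv_mul_cancel₀ hne

/-- PROOF.  For all real `t`: `RCS (q + t q0)` with `u = e1 + e2` and `w`: `(q u u + 2 t) (q w w + t q0 w w) ≤ (q u w)²` (`q0 u w = 0`).  First for `q = 0`,
`u = e1 + e2` and `u = e1 - e2`: `q0 w w = 0`.  Then `(q u u + 2 t) q w w ≤ (q u w)²` for all `t`, so `q w w = 0`. -/
theorem q_w_w {n : ℕ} (q0 q : Bil n) (hs0 : ∀ u v, q0 u v = q0 v u) (hs : ∀ u v, q u v = q v u)
    (h : ∀ a t : ℝ, RCS (a • q + t • q0)) (e1 e2 w : EE n) (h1 : q0 e1 e1 = 0) (h2 : q0 e2 e2 = 0)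
    (h12 : q0 e1 e2 = 1) (hw1 : q0 e1 w = 0) (hw2 : q0 e2 w = 0) : q0 w w = 0 ∧ q w w = 0 := by
  have h21 : q0 e2 e1 = 1 := by rw [hs0, h12]
  have hww : q0 w w = 0 := by
    have hA := h 0 1 (e1 + e2) w
    have hB := h 0 1 (e1 - e2) w
    simp only [map_add, map_sub, ContinuousLinearMap.add_apply, ContinuousLinearMap.smul_apply,
      ContinuousLinearMap.sub_apply, smul_eq_mul, h1, h2, h12, h21, hw1, hw2] at hA hB
    nlinarith [hA, hB]
  refine ⟨hww, ?_⟩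
  by_contra hne
  set A := q (e1 + e2) (e1 + e2) with hA
  set C := q (e1 + e2) w with hC
  set W := q w w with hW
  have huu : q0 (e1 + e2) (e1 + e2) = 2 := by
    simp only [map_add, ContinuousLinearMap.add_apply, h1, h2, h12, h21]
    norm_num
  have huw : q0 (e1 + e2) w = 0 := by
    simp only [map_add, ContinuousLinearMap.add_apply, hw1, hw2]
    norm_num
  have key : ∀ t : ℝ, (A + 2 * t) * W ≤ C ^ 2 := by
    intro t
    have := h 1 t (e1 + e2) w
    simp only [one_smul, ContinuousLinearMap.add_apply, ContinuousLinearMap.smul_apply,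
      smul_eq_mul, huu, huw, hww, ← hA, ← hC, ← hW] at this
    linarith
  have := key (((C ^ 2 + 1) / W - A) / 2)
  have e : (A + 2 * (((C ^ 2 + 1) / W - A) / 2)) * W = C ^ 2 + 1 := by
    field_simp
    ring
  rw [e] at this
  linarith

/-- PROOF.  Let `B = q + t q0`, `r1 = q e1 w`, `r2 = q e2 w`, `y = r2 e1 - r1 e2`, so `B w y = 0` (`B w w = 0`).  If `(r1, r2) ≠ 0` let `x = r1 e1 + r2 e2`, so
`B x w = r1² + r2² > 0`.  `RCS B` for `x + s w` and `y`: `(B x x + 2 s B x w) B y y ≤ (B x y)²` for all real `s`; so `B y y = 0`, i.e.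
`r2² q e1 e1 - 2 r1 r2 (q e1 e2 + t) + r1² q e2 e2 = 0` for all `t`: hence `r1 r2 = 0` and `r2² q e1 e1 + r1² q e2 e2 = 0`. -/
theorem r_eq {n : ℕ} (q0 q : Bil n) (hs0 : ∀ u v, q0 u v = q0 v u) (hs : ∀ u v, q u v = q v u)
    (h : ∀ a t : ℝ, RCS (a • q + t • q0)) (e1 e2 w : EE n) (h1 : q0 e1 e1 = 0) (h2 : q0 e2 e2 = 0)
    (h12 : q0 e1 e2 = 1) (hw1 : q0 e1 w = 0) (hw2 : q0 e2 w = 0) :
    q e1 w * q e2 w = 0 ∧ (q e1 w ≠ 0 → q e2 e2 = 0) ∧ (q e2 w ≠ 0 → q e1 e1 = 0) := by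
  obtain ⟨hww0, hww⟩ := q_w_w q0 q hs0 hs h e1 e2 w h1 h2 h12 hw1 hw2
  have h21 : q0 e2 e1 = 1 := by rw [hs0, h12]
  have hw1' : q0 w e1 = 0 := by rw [hs0, hw1]
  have hw2' : q0 w e2 = 0 := by rw [hs0, hw2]
  set r1 := q e1 w with hr1
  set r2 := q e2 w with hr2
  have hr1' : q w e1 = r1 := by rw [hs w e1]
  have hr2' : q w e2 = r2 := by rw [hs w e2]
  have h21' : q e2 e1 = q e1 e2 := hs e2 e1
  by_cases hR : r1 = 0 ∧ r2 = 0
  · obtain ⟨a, b⟩ := hR
    refine ⟨by rw [a]; simp, fun h => absurd a h, fun h => absurd b h⟩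
  have hpos : 0 < r1 ^ 2 + r2 ^ 2 := by
    by_contra hc
    push Not at hc
    apply hR
    constructor
    · have : r1 ^ 2 = 0 := by nlinarith [sq_nonneg r1, sq_nonneg r2]
      exact pow_eq_zero_iff (two_ne_zero) |>.1 this
    · have : r2 ^ 2 = 0 := by nlinarith [sq_nonneg r1, sq_nonneg r2]
      exact pow_eq_zero_iff (two_ne_zero) |>.1 this
  have main : ∀ t : ℝ, r2 ^ 2 * q e1 e1 - 2 * r1 * r2 * (q e1 e2 + t) + r1 ^ 2 * q e2 e2 = 0 := by
    intro t
    by_contra hne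
    set Y := r2 ^ 2 * q e1 e1 - 2 * r1 * r2 * (q e1 e2 + t) + r1 ^ 2 * q e2 e2 with hY
    set X := r1 ^ 2 * q e1 e1 + 2 * r1 * r2 * (q e1 e2 + t) + r2 ^ 2 * q e2 e2 with hX
    set Z := r1 * r2 * q e1 e1 - (r1 ^ 2 - r2 ^ 2) * (q e1 e2 + t) - r1 * r2 * q e2 e2 with hZ
    have key : ∀ s : ℝ, (X + 2 * s * (r1 ^ 2 + r2 ^ 2)) * Y ≤ Z ^ 2 := by
      intro s
      have := h 1 t (r1 • e1 + r2 • e2 + s • w) (r2 • e1 - r1 • e2)
      simp only [one_smul, map_add, map_sub, map_smul, ContinuousLinearMap.add_apply,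
        ContinuousLinearMap.sub_apply, ContinuousLinearMap.smul_apply, smul_eq_mul,
        h1, h2, h12, h21, hw1, hw2, hw1', hw2', hww0, hww, hr1', hr2', h21', ← hr1, ← hr2] at this
      rw [hX, hY, hZ]
      nlinarith [this]
    have := key (((Z ^ 2 + 1) / Y - X) / (2 * (r1 ^ 2 + r2 ^ 2)))
    have e : (X + 2 * (((Z ^ 2 + 1) / Y - X) / (2 * (r1 ^ 2 + r2 ^ 2))) * (r1 ^ 2 + r2 ^ 2)) * Y
        = Z ^ 2 + 1 := by
      field_simp
      ring
    rw [e] at this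
    linarith
  have m0 := main 0
  have m1 := main 1
  have hr12 : r1 * r2 = 0 := by linarith
  refine ⟨hr12, ?_, ?_⟩
  · intro hn
    have hr20 : r2 = 0 := by
      rcases mul_eq_zero.1 hr12 with h | h
      · exact absurd h hn
      · exact h
    rw [hr20] at m0
    have : r1 ^ 2 * q e2 e2 = 0 := by linarith
    rcases mul_eq_zero.1 this with h | h
    · exact absurd (pow_eq_zero_iff (two_ne_zero) |>.1 h) hn
    · exact h
  · intro hn
    have hr10 : r1 = 0 := by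
      rcases mul_eq_zero.1 hr12 with h | h
      · exact h
      · exact absurd h hn
    rw [hr10] at m0
    have : r2 ^ 2 * q e1 e1 = 0 := by linarith
    rcases mul_eq_zero.1 this with h | h
    · exact absurd (pow_eq_zero_iff (two_ne_zero) |>.1 h) hn
    · exact h

end Pool.TI52
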