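import Pool.Agent.LibTI52.TI_L4

/-! TI52, file L4b: a linear space of forms with the reverse Cauchy-Schwarz inequality has dimension at most `n`. -/

set_option autoImplicit false

open scoped InnerProductSpace

namespace Pool.TI52

theorem L4b.polar {n : ℕ} {q : Bil n} (hs : ∀ u v, q u v = q v u) (h : ∀ v, q v v = 0) :
    q = 0 := by
  ext u v
  have h1 := h (u + v)
  simp only [map_add, add_apply, h u, h v, hs v u] at h1
  simp only [zero_apply]
  linarith

/-- the common kernel -/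
noncomputable def L4b.K {n : ℕ} (q0 : Bil n) (e1 e2 : EE n) : Submodule ℝ (EE n) :=
  LinearMap.ker (LinearMap.prod (q0 e1 : EE n →ₗ[ℝ] ℝ) (q0 e2 : EE n →ₗ[ℝ] ℝ))

theorem L4b.mem_K {n : ℕ} {q0 : Bil n} {e1 e2 w : EE n} :
    w ∈ L4b.K q0 e1 e2 ↔ q0 e1 w = 0 ∧ q0 e2 w = 0 := by
  simp [L4b.K, LinearMap.mem_ker]

theorem L4b.K_swap {n : ℕ} (q0 : Bil n) (e1 e2 : EE n) :
    L4b.K q0 e2 e1 = L4b.K q0 e1 e2 := by
  ext w
  rw [L4b.mem_K, L4b.mem_K, and_comm]

theorem L4b.finrank_K {n : ℕ} {q0 : Bil n} (hs0 : ∀ u v, q0 u v = q0 v u) {e1 e2 : EE n}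
    (h1 : q0 e1 e1 = 0) (h2 : q0 e2 e2 = 0) (h12 : q0 e1 e2 = 1) :
    2 + Module.finrank ℝ (L4b.K q0 e1 e2) = n := by
  have hr : LinearMap.range (LinearMap.prod (q0 e1 : EE n →ₗ[ℝ] ℝ) (q0 e2 : EE n →ₗ[ℝ] ℝ)) = ⊤ := by
    rw [LinearMap.range_eq_top]
    rintro ⟨a, b⟩
    refine ⟨b • e1 + a • e2, ?_⟩
    have h21 : q0 e2 e1 = 1 := by rw [hs0]; exact h12
    simp [h1, h2, h12, h21]
  have h := LinearMap.finrank_range_add_finrank_ker
    (LinearMap.prod (q0 e1 : EE n →ₗ[ℝ] ℝ) (q0 e2 : EE n →ₗ[ℝ] ℝ))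
  rw [hr, finrank_top, finrank_euclideanSpace_fin, Module.finrank_prod, Module.finrank_self] at h
  exact h

theorem L4b.ext3 {n : ℕ} {q0 : Bil n} (hs0 : ∀ u v, q0 u v = q0 v u) {e1 e2 : EE n}
    (h1 : q0 e1 e1 = 0) (h2 : q0 e2 e2 = 0) (h12 : q0 e1 e2 = 1) {q : Bil n}
    (hs : ∀ u v, q u v = q v u) (k11 : q e1 e1 = 0) (k12 : q e1 e2 = 0) (k22 : q e2 e2 = 0)
    (k1 : ∀ w ∈ L4b.K q0 e1 e2, q e1 w = 0) (k2 : ∀ w ∈ L4b.K q0 e1 e2, q e2 w = 0)
    (kK : ∀ w ∈ L4b.K q0 e1 e2, q w w = 0) : q = 0 := by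
  apply L4b.polar hs
  intro v
  have h21 : q0 e2 e1 = 1 := by rw [hs0]; exact h12
  have hw : v - (q0 e2 v) • e1 - (q0 e1 v) • e2 ∈ L4b.K q0 e1 e2 := by
    rw [L4b.mem_K]
    simp [h1, h2, h12, h21]
  obtain ⟨w, hw'⟩ : ∃ w, w = v - (q0 e2 v) • e1 - (q0 e1 v) • e2 := ⟨_, rfl⟩
  rw [← hw'] at hw
  have hv : v = (q0 e2 v) • e1 + (q0 e1 v) • e2 + w := by rw [hw']; abel
  generalize q0 e2 v = a at hv
  generalize q0 e1 v = b at hv
  rw [hv]
  simp only [map_add, add_apply, map_smul, smul_apply, smul_eq_mul, k11, k12, k22, k1 w hw,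
    k2 w hw, kK w hw, hs e2 e1, hs w e1, hs w e2]
  ring

/-- evaluation -/
noncomputable def L4b.ev {n : ℕ} (u v : EE n) : Bil n →ₗ[ℝ] ℝ where
  toFun q := q u v
  map_add' q r := by simp
  map_smul' a q := by simp

theorem L4b.sub_mem {n : ℕ} (V : Submodule ℝ (Bil n)) {q r : Bil n} (hq : q ∈ V) (hr : r ∈ V) :
    q - r ∈ V := by
  have h := V.add_mem hq (V.smul_mem (-1) hr)
  have h2 : q + (-1 : ℝ) • r = q - r := by
    ext u v
    simp
    ring
  rwa [h2] at h

/-- evaluation, functional version -/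
noncomputable def L4b.evK {n : ℕ} (K : Submodule ℝ (EE n)) (u : EE n) : Bil n →ₗ[ℝ] Module.Dual ℝ K where
  toFun q := (q u : EE n →ₗ[ℝ] ℝ).comp K.subtype
  map_add' q r := by ext; simp
  map_smul' a q := by ext; simp

theorem L4b.case1 {n : ℕ} (V : Submodule ℝ (Bil n))
    (hs : ∀ q ∈ V, ∀ u v, q u v = q v u) (hr : ∀ q ∈ V, RCS q) (q0 : Bil n) (h0 : q0 ∈ V)
    {e1 e2 : EE n} (h1 : q0 e1 e1 = 0) (h2 : q0 e2 e2 = 0) (h12 : q0 e1 e2 = 1)
    (qa : Bil n) (ha : qa ∈ V) (wa : EE n) (hwa : wa ∈ L4b.K q0 e1 e2) (hne : qa e1 wa ≠ 0) :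
    Module.finrank ℝ V ≤ n := by
  have hc : ∀ q ∈ V, ∀ a t : ℝ, RCS (a • q + t • q0) := fun q hq a t =>
    hr _ (V.add_mem (V.smul_mem a hq) (V.smul_mem t h0))
  have hR : ∀ q ∈ V, ∀ w ∈ L4b.K q0 e1 e2, q e1 w * q e2 w = 0 ∧ (q e1 w ≠ 0 → q e2 e2 = 0) ∧
      (q e2 w ≠ 0 → q e1 e1 = 0) := by
    intro q hq w hw
    rw [L4b.mem_K] at hw
    exact r_eq q0 q (hs q0 h0) (hs q hq) (hc q hq) e1 e2 w h1 h2 h12 hw.1 hw.2
  -- good forms
  have hG : ∀ q ∈ V, q e1 wa ≠ 0 → q e2 e2 = 0 ∧ ∀ w ∈ L4b.K q0 e1 e2, q e2 w = 0 := by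
    intro q hq hqa
    refine ⟨(hR q hq wa hwa).2.1 hqa, ?_⟩
    intro w hw
    by_contra hcon
    have e2a : q e2 wa = 0 := by
      rcases mul_eq_zero.1 (hR q hq wa hwa).1 with h | h
      · exact absurd h hqa
      · exact h
    have e1w : q e1 w = 0 := by
      rcases mul_eq_zero.1 (hR q hq w hw).1 with h | h
      · exact h
      · exact absurd h hcon
    have h3 := (hR q hq (w + wa) (Submodule.add_mem _ hw hwa)).1
    simp only [map_add, e2a, e1w, zero_add, add_zero] at h3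
    rcases mul_eq_zero.1 h3 with h | h
    · exact hqa h
    · exact hcon h
  have hall : ∀ q ∈ V, q e2 e2 = 0 ∧ ∀ w ∈ L4b.K q0 e1 e2, q e2 w = 0 := by
    intro q hq
    by_cases hq1 : q e1 wa = 0
    · have hG1 := hG (q + qa) (V.add_mem hq ha) (by simp [hq1, hne])
      have hG2 := hG qa ha hne
      constructor
      · have := hG1.1
        simp only [add_apply, hG2.1, add_zero] at this
        exact this
      · intro w hw
        have := hG1.2 w hw
        simp only [add_apply, hG2.2 w hw, add_zero] at this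
        exact this
    · exact hG q hq hq1
  have hKK : ∀ q ∈ V, ∀ w ∈ L4b.K q0 e1 e2, q w w = 0 := by
    intro q hq w hw
    rw [L4b.mem_K] at hw
    exact (q_w_w q0 q (hs q0 h0) (hs q hq) (hc q hq) e1 e2 w h1 h2 h12 hw.1 hw.2).2
  let Φ : V →ₗ[ℝ] ℝ × (ℝ × Module.Dual ℝ (L4b.K q0 e1 e2)) :=
    ((L4b.ev e1 e1).prod ((L4b.ev e1 e2).prod (L4b.evK (L4b.K q0 e1 e2) e1))).comp V.subtype
  have hinj : Function.Injective Φ := by
    intro q r hq
    have hV := L4b.sub_mem V q.2 r.2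
    have e1' : (q : Bil n) e1 e1 = (r : Bil n) e1 e1 := congrArg Prod.fst hq
    have e2' : (q : Bil n) e1 e2 = (r : Bil n) e1 e2 := congrArg (fun x => x.2.1) hq
    have e3' : ∀ w ∈ L4b.K q0 e1 e2, (q : Bil n) e1 w = (r : Bil n) e1 w := by
      intro w hw
      exact DFunLike.congr_fun (congrArg (fun x => x.2.2) hq) (⟨w, hw⟩ : L4b.K q0 e1 e2)
    have := L4b.ext3 (hs q0 h0) h1 h2 h12 (hs _ hV) (by simp [e1']) (by simp [e2'])
      (hall _ hV).1 (fun w hw => by simp [e3' w hw]) (hall _ hV).2 (hKK _ hV)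
    exact Subtype.ext (sub_eq_zero.1 this)
  have hle := LinearMap.finrank_le_finrank_of_injective hinj
  rw [Module.finrank_prod, Module.finrank_prod, Module.finrank_self, Subspace.dual_finrank_eq]
    at hle
  have := L4b.finrank_K (hs q0 h0) h1 h2 h12
  omega

/-- PROOF.  If no `q0 ∈ V` takes both signs then `finrank V ≤ 1`: for `q1, q2 ∈ V`, `q1 ≠ 0`, say `q1 ≥ 0` (semidefinite), `q1 u u = 1`; `q2 - (q2 u u) q1 =: q ∈ V`
vanishes at `u`; if `q v v ≠ 0` for some `v` then, for the sign `ε` with `ε q ≤ 0`..., `q1 + s q` takes both signs for `|s|` large of the right sign (value `1` at `u`), contradiction; so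
`q = 0` (polarization).
Otherwise take a hyperbolic pair `e1, e2` of `q0 ∈ V` and `K = {w | q0 e1 w = 0, q0 e2 w = 0}` (`finrank K = n - 2`, `EE n = ℝ e1 ⊕ ℝ e2 ⊕ K`).  Every `q ∈ V` vanishes on `K × K` (`q_w_w`
and polarization), so `q ↦ (q e1 e1, q e1 e2, q e2 e2, q e1 |_K, q e2 |_K)` is injective on `V`.  By `r_eq` the functionals `r1 = q e1 |_K` and `r2 = q e2 |_K` satisfy `r1 r2 = 0` pointwise, so
one of them is `0`.  CASE 1: some `qa ∈ V` has `r1 ≠ 0`: then for every `q ∈ V`: `r2 = 0` and `q e2 e2 = 0` (apply `r_eq` to `qa` and to `q + a qa` with `r1 (q + a qa) ≠ 0`);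
so `q ↦ (q e1 e1, q e1 e2, q e1 |_K)` is injective, `finrank V ≤ 2 + (n - 2)`.  CASE 2: some `qa` has `r2 ≠ 0`: the same.  CASE 3: `finrank V ≤ 3`. -/
theorem finrank_RCS {n : ℕ} (hn : 3 ≤ n) (V : Submodule ℝ (Bil n))
    (hs : ∀ q ∈ V, ∀ u v, q u v = q v u) (hr : ∀ q ∈ V, RCS q) : Module.finrank ℝ V ≤ n := by
  by_cases hex : ∃ q0 ∈ V, (∃ u, 0 < q0 u u) ∧ ∃ v, q0 v v < 0
  · obtain ⟨q0, h0, ⟨u, hu⟩, ⟨v, hv⟩⟩ := hex
    obtain ⟨e1, e2, h1, h2, h12⟩ := exists_hyperbolic q0 (hs q0 h0) u v hu hv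
    have h21 : q0 e2 e1 = 1 := by rw [hs q0 h0]; exact h12
    by_cases hA : ∃ qa ∈ V, ∃ wa ∈ L4b.K q0 e1 e2, qa e1 wa ≠ 0
    · obtain ⟨qa, ha, wa, hwa, hne⟩ := hA
      exact L4b.case1 V hs hr q0 h0 h1 h2 h12 qa ha wa hwa hne
    by_cases hB : ∃ qa ∈ V, ∃ wa ∈ L4b.K q0 e1 e2, qa e2 wa ≠ 0
    · obtain ⟨qa, ha, wa, hwa, hne⟩ := hB
      rw [← L4b.K_swap] at hwa
      exact L4b.case1 V hs hr q0 h0 h2 h1 h21 qa ha wa hwa hne
    push Not at hA hB
    have hc : ∀ q ∈ V, ∀ a t : ℝ, RCS (a • q + t • q0) := fun q hq a t =>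
      hr _ (V.add_mem (V.smul_mem a hq) (V.smul_mem t h0))
    have hKK : ∀ q ∈ V, ∀ w ∈ L4b.K q0 e1 e2, q w w = 0 := by
      intro q hq w hw
      rw [L4b.mem_K] at hw
      exact (q_w_w q0 q (hs q0 h0) (hs q hq) (hc q hq) e1 e2 w h1 h2 h12 hw.1 hw.2).2
    let Φ : V →ₗ[ℝ] ℝ × (ℝ × ℝ) :=
      ((L4b.ev e1 e1).prod ((L4b.ev e1 e2).prod (L4b.ev e2 e2))).comp V.subtype
    have hinj : Function.Injective Φ := by
      intro q r hq
      have hV := L4b.sub_mem V q.2 r.2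
      have e1' : (q : Bil n) e1 e1 = (r : Bil n) e1 e1 := congrArg Prod.fst hq
      have e2' : (q : Bil n) e1 e2 = (r : Bil n) e1 e2 := congrArg (fun x => x.2.1) hq
      have e3' : (q : Bil n) e2 e2 = (r : Bil n) e2 e2 := congrArg (fun x => x.2.2) hq
      have := L4b.ext3 (hs q0 h0) h1 h2 h12 (hs _ hV) (by simp [e1']) (by simp [e2'])
        (by simp [e3']) (hA _ hV) (hB _ hV) (hKK _ hV)
      exact Subtype.ext (sub_eq_zero.1 this)
    have hle := LinearMap.finrank_le_finrank_of_injective hinj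
    rw [Module.finrank_prod, Module.finrank_prod, Module.finrank_self] at hle
    omega
  · push Not at hex
    by_cases hV : ∃ q1 ∈ V, q1 ≠ 0
    · obtain ⟨q1, hq1, hne⟩ := hV
      have hu : ∃ u, q1 u u ≠ 0 := by
        by_contra hcon
        push Not at hcon
        exact hne (L4b.polar (hs q1 hq1) hcon)
      obtain ⟨u, hu⟩ := hu
      have key : Module.finrank ℝ V ≤ 1 := by
        refine finrank_le_one (⟨q1, hq1⟩ : V) ?_
        intro q
        refine ⟨(q : Bil n) u u / q1 u u, ?_⟩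
        have hq' : (q : Bil n) - ((q : Bil n) u u / q1 u u) • q1 ∈ V :=
          L4b.sub_mem V q.2 (V.smul_mem _ hq1)
        have hz : (q : Bil n) - ((q : Bil n) u u / q1 u u) • q1 = 0 := by
          apply L4b.polar (hs _ hq')
          intro v
          generalize hr' : (q : Bil n) - ((q : Bil n) u u / q1 u u) • q1 = r at hq'
          have hru : r u u = 0 := by
            rw [← hr']
            simp only [sub_apply, smul_apply, smul_eq_mul]
            field_simp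
            ring
          by_contra hv
          have hm : q1 + ((- q1 u u - q1 v v) / r v v) • r ∈ V :=
            V.add_mem hq1 (V.smul_mem _ hq')
          generalize hs' : q1 + ((- q1 u u - q1 v v) / r v v) • r = s at hm
          have hsu : s u u = q1 u u := by
            rw [← hs']
            simp [hru]
          have hsv : s v v = - q1 u u := by
            rw [← hs']
            simp only [add_apply, smul_apply, smul_eq_mul]
            field_simp
            ring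
          rcases lt_or_gt_of_ne hu with h | h
          · have := hex s hm ⟨v, by rw [hsv]; linarith⟩ u
            rw [hsu] at this
            linarith
          · have := hex s hm ⟨u, by rw [hsu]; exact h⟩ v
            rw [hsv] at this
            linarith
        apply Subtype.ext
        simp only [Submodule.coe_smul]
        exact (sub_eq_zero.1 hz).symm
      omega
    · push Not at hV
      have : V = ⊥ := by
        rw [Submodule.eq_bot_iff]
        exact hV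
      rw [this]
      simp

end Pool.TI52
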