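import Pool.Agent.LibTI52.TI_L1
import Pool.Agent.LibTI52.TI_L2
import Pool.Agent.LibTI52.TI_L3
import Pool.Agent.LibTI52.TI_L4b

/-! TI52, file L5: the linear algebra theorem. -/

set_option autoImplicit false

open scoped InnerProductSpace

namespace Pool.TI52

theorem L5.sub_mem {n : ℕ} (V : Submodule ℝ (Bil n)) {A B : Bil n} (hA : A ∈ V) (hB : B ∈ V) :
    A - B ∈ V := by
  have h := V.add_mem hA (V.smul_mem (-1 : ℝ) hB)
  have e : A - B = A + (-1 : ℝ) • B := by
    ext u v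
    simp [sub_eq_add_neg]
  rw [e]
  exact h

theorem L5.neg_mem {n : ℕ} (V : Submodule ℝ (Bil n)) {A : Bil n} (hA : A ∈ V) : -A ∈ V := by
  have h := V.smul_mem (-1 : ℝ) hA
  have e : -A = (-1 : ℝ) • A := by
    ext u v
    simp
  rw [e]
  exact h

/-- the coefficients of a form -/
noncomputable def L5.coef (n : ℕ) : Bil n →ₗ[ℝ] (Fin n → Fin n → ℝ) where
  toFun B i j := B (EuclideanSpace.single i 1) (EuclideanSpace.single j 1)
  map_add' A B := by
    funext i j
    simp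
  map_smul' a B := by
    funext i j
    simp

theorem L5.coef_inj (n : ℕ) : Function.Injective (L5.coef n) := by
  intro A B h
  have h1 : ∀ i j, A (EuclideanSpace.single i 1) (EuclideanSpace.single j 1) =
      B (EuclideanSpace.single i 1) (EuclideanSpace.single j 1) := fun i j =>
    congrFun (congrFun h i) j
  have h2 : (A : EE n →ₗ[ℝ] (EE n →L[ℝ] ℝ)) = (B : EE n →ₗ[ℝ] (EE n →L[ℝ] ℝ)) := by
    refine (EuclideanSpace.basisFun (Fin n) ℝ).toBasis.ext fun i => ?_
    refine ContinuousLinearMap.coe_injective ?_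
    refine (EuclideanSpace.basisFun (Fin n) ℝ).toBasis.ext fun j => ?_
    simpa using h1 i j
  exact ContinuousLinearMap.coe_injective h2

/-- standard form.  PROOF.  `V0 = {q ∈ V | RCS q}` is a submodule of `V` (`RCS.smul`; sums: `exists_shift` for `q1 + q2 ∈ V` and `shift_eq_zero`), and every `B ∈ V` is
`m ip + (B - m ip)` with `B - m ip ∈ V0` (`exists_shift`); so `V ≤ span {ip} ⊔ V0` and `finrank V ≤ 1 + finrank V0 ≤ 1 + n` (`finrank_RCS`). -/
theorem finrank_le_std {n : ℕ} (hn : 4 ≤ n) (V : Submodule ℝ (Bil n))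
    (hs : ∀ B ∈ V, ∀ u v, B u v = B v u) (hip : ip n ∈ V)
    (hidx : ∀ B ∈ V, ∀ i, 2 ≤ i → i + 2 ≤ n → ¬ HasIndex B i) : Module.finrank ℝ V ≤ n + 1 := by
  have hsh : ∀ B ∈ V, ∃ m : ℝ, RCS (B - m • ip n) := fun B hB =>
    exists_shift hn B (hs B hB) fun t i h2 hi =>
      hidx _ (L5.sub_mem V hB (V.smul_mem t hip)) i h2 hi
  let V0 : Submodule ℝ (Bil n) :=
    { carrier := {q | q ∈ V ∧ RCS q}
      zero_mem' := ⟨V.zero_mem, RCS.zero⟩
      add_mem' := by
        rintro q1 q2 ⟨h1, r1⟩ ⟨h2, r2⟩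
        refine ⟨V.add_mem h1 h2, ?_⟩
        obtain ⟨m, hm⟩ := hsh _ (V.add_mem h1 h2)
        have h0 : m = 0 := shift_eq_zero hn r1 r2 m hm
        have e : q1 + q2 - m • ip n = q1 + q2 := by
          ext u v
          simp [h0]
        rw [e] at hm
        exact hm
      smul_mem' := by
        rintro a q ⟨h1, r1⟩
        exact ⟨V.smul_mem a h1, r1.smul a⟩ }
  have hle : V.map (L5.coef n) ≤ Submodule.span ℝ {L5.coef n (ip n)} ⊔ V0.map (L5.coef n) := by
    rintro _ ⟨B, hB, rfl⟩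
    obtain ⟨m, hm⟩ := hsh B hB
    have e : B = m • ip n + (B - m • ip n) := by
      ext u v
      simp
    rw [e, map_add, map_smul]
    exact Submodule.add_mem_sup (Submodule.smul_mem _ _ (Submodule.mem_span_singleton_self _))
      (Submodule.mem_map_of_mem (show B - m • ip n ∈ V0 from
        ⟨L5.sub_mem V hB (V.smul_mem m hip), hm⟩))
  have e1 : Module.finrank ℝ V = Module.finrank ℝ (V.map (L5.coef n)) :=
    (Submodule.equivMapOfInjective (L5.coef n) (L5.coef_inj n) V).finrank_eq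
  have e2 : Module.finrank ℝ V0 = Module.finrank ℝ (V0.map (L5.coef n)) :=
    (Submodule.equivMapOfInjective (L5.coef n) (L5.coef_inj n) V0).finrank_eq
  have h1 := Submodule.finrank_mono hle
  have h2 := Submodule.finrank_add_le_finrank_add_finrank
    (Submodule.span ℝ {L5.coef n (ip n)}) (V0.map (L5.coef n))
  have h3 : Module.finrank ℝ (Submodule.span ℝ ({L5.coef n (ip n)} : Set (Fin n → Fin n → ℝ))) ≤ 1 := by
    have := finrank_span_le_card (R := ℝ) ({L5.coef n (ip n)} : Set (Fin n → Fin n → ℝ))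
    simpa using this
  have h4 : Module.finrank ℝ V0 ≤ n :=
    finrank_RCS (by omega) V0 (fun q hq => hs q hq.1) (fun q hq => hq.2)
  omega

/-- PROOF.  `finrank_le_std` for `V.map (pull T)`, `T` from `exists_normal_form` (`ip = - pull T Q0`); `hasIndex_congr`, `pull_apply`. -/
theorem finrank_le {n : ℕ} (hn : 4 ≤ n) (V : Submodule ℝ (Bil n))
    (hs : ∀ B ∈ V, ∀ u v, B u v = B v u) (Q0 : Bil n) (h0 : Q0 ∈ V)
    (hneg : ∀ v, v ≠ 0 → Q0 v v < 0)
    (hidx : ∀ B ∈ V, ∀ i, 2 ≤ i → i + 2 ≤ n → ¬ HasIndex B i) : Module.finrank ℝ V ≤ n + 1 := by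
  obtain ⟨T, hT⟩ := exists_normal_form Q0 (hs Q0 h0) hneg
  have hfr : Module.finrank ℝ (V.map (pull T : Bil n →ₗ[ℝ] Bil n)) = Module.finrank ℝ V :=
    LinearEquiv.finrank_map_eq (pull T) V
  rw [← hfr]
  refine finrank_le_std hn _ ?_ ?_ ?_
  · rintro _ ⟨B, hB, rfl⟩ u v
    change pull T B u v = pull T B v u
    rw [pull_apply, pull_apply, hs B hB]
  · refine ⟨-Q0, L5.neg_mem V h0, ?_⟩
    ext u v
    change pull T (-Q0) u v = _
    rw [pull_apply, ip_apply, neg_apply, neg_apply, hT,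
      neg_neg]
  · rintro _ ⟨B, hB, rfl⟩ i h2 hi hI
    exact hidx B hB i h2 hi ((hasIndex_congr T (fun u v => pull_apply T B u v) i).1 hI)

end Pool.TI52
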