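import Pool.Agent.LibTI52.TI_C3
import Pool.Agent.LibTI52.TI_C4
import Pool.Agent.LibTI52.TI_L5

/-! TI52: the main theorem. -/

set_option autoImplicit false

open scoped Manifold ContDiff InnerProductSpace Topology

namespace Pool.TI52

/-- PROOF.  `bet n g i = 0` for `2 ≤ i`, `i + 2 ≤ n`, `bet n g n = 1`.  By `index_empty` there is no `HasIndex (Hess z p) i` for normal `z` and `2 ≤ i ≤ n - 2`; by `global_of_local` all nondegenerate
local maxima are global; `exists_max` gives `z1, p`.  `V = (norS f hf p).map (hessL f hf p)` has dimension `N - n` (`hess_inj`, `finrank_norS`), and `finrank_le` gives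
`N - n ≤ n + 1`. -/
theorem main {n N g : ℕ} (hn : 4 ≤ n) {M : Type*} [TopologicalSpace M] [CompactSpace M]
    [Nonempty M] [ChartedSpace (EE n) M] [IsManifold (𝓡 n) ∞ M] (f : M → EE N)
    (hf : ContMDiff (𝓡 n) 𝓘(ℝ, EE N) ∞ f)
    (himm : ∀ p, Function.Injective (mfderiv (𝓡 n) 𝓘(ℝ, EE N) f p))
    (hsub : ¬ ∃ (z : EE N) (a : ℝ), z ≠ 0 ∧ ∀ p, ⟪z, f p⟫_ℝ = a)
    (htight : ∀ z : EE N, IsMorse n f z → ∀ i, (critSet n f z i).encard = bet n g i) :
    N ≤ n + (n + 1) := by
  have hE : ∀ (z : EE N) (i : ℕ), 2 ≤ i → i + 2 ≤ n → critSet n f z i = ∅ := by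
    intro z i h2 h3
    refine index_empty f hf himm i (fun z' hz' => ?_) z
    have h4 := htight z' hz' i
    have h5 : bet n g i = 0 := by
      unfold bet
      rw [if_neg (by omega), if_neg (by omega)]
    rw [h5, Nat.cast_zero] at h4
    exact Set.encard_eq_zero.1 h4
  have hS : ∀ z : EE N, IsMorse n f z → (critSet n f z n).Subsingleton := by
    intro z hz
    have h4 := htight z hz n
    have h5 : bet n g n = 1 := by
      unfold bet
      rw [if_pos (Or.inr rfl)]
    rw [h5, Nat.cast_one] at h4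
    exact Set.encard_le_one_iff_subsingleton.1 (le_of_eq h4)
  have hglob : ∀ (z : EE N) (p : M), p ∈ critSet n f z n → ∀ q, ⟪z, f q⟫_ℝ ≤ ⟪z, f p⟫_ℝ :=
    fun z p hp q => global_of_local f hf himm hS z p hp q
  obtain ⟨z1, p, hp⟩ := exists_max f hf himm
  have hinj : Function.Injective ((hessL f hf p).domRestrict (norS f hf p)) := by
    rw [injective_iff_map_eq_zero]
    intro w hw
    have h1 : (w : EE N) = 0 := hess_inj f hf hsub hglob p z1 hp w w.2 hw
    exact Subtype.ext h1
  have hfin : Module.finrank ℝ ((norS f hf p).map (hessL f hf p)) =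
      Module.finrank ℝ (norS f hf p) := by
    rw [← LinearMap.range_domRestrict]
    exact LinearMap.finrank_range_of_inj hinj
  have hle : Module.finrank ℝ ((norS f hf p).map (hessL f hf p)) ≤ n + 1 := by
    refine finrank_le hn _ ?_ (Hess n f z1 p) ?_ ?_ ?_
    · rintro B ⟨z, _, rfl⟩ u v
      exact hess_symm f hf p z u v
    · exact ⟨z1, hp.1, rfl⟩
    · obtain ⟨_, W, W', hW, _, hneg, _⟩ := hp.2
      have hT : W = ⊤ := Submodule.eq_top_of_finrank_eq (by rw [hW, finrank_euclideanSpace_fin])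
      intro v hv
      exact hneg v (by rw [hT]; exact Submodule.mem_top) hv
    · rintro B ⟨z, hz, rfl⟩ i h2 h3 hi
      have h4 : p ∈ critSet n f z i := ⟨hz, hi⟩
      rw [hE z i h2 h3] at h4
      exact h4
  have hN := finrank_norS f hf p (himm p)
  omega

end Pool.TI52
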